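import Pool.Agent.H51.EP.Num0

/-! The ring of integers `Zr M` of a model `M` of Peano arithmetic: an ordered commutative ring
into which `M` embeds as the set of nonnegative elements, and definability for `Zr M`-valued
functions. -/

set_option autoImplicit false

namespace Pool.Agent.H87.EP

open Pool.Agent.Helper687.Arith Pool.Agent.H51.EP

section ring

variable {M : Type} [PAModel M]

/-- equality of differences -/
def zsetoid (M : Type) [PAModel M] : Setoid (M × M) where
  r p q := p.1 + q.2 = q.1 + p.2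
  iseqv := by
    refine ⟨fun p => rfl, fun {p q} h => h.symm, fun {p q r} h1 h2 => ?_⟩
    have : (p.1 + r.2) + q.2 = (r.1 + p.2) + q.2 := by
      calc (p.1 + r.2) + q.2 = (p.1 + q.2) + r.2 := by ring
        _ = (q.1 + p.2) + r.2 := by rw [h1]
        _ = (q.1 + r.2) + p.2 := by ring
        _ = (r.1 + q.2) + p.2 := by rw [h2]
        _ = (r.1 + p.2) + q.2 := by ring
    exact add_right_cancel this

/-- The ring of integers of `M`. -/
def Zr (M : Type) [PAModel M] : Type := Quotient (zsetoid M)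

namespace Zr

/-- the difference `a - b` -/
def mk (a b : M) : Zr M := Quotient.mk (zsetoid M) (a, b)

theorem mk_eq {a b c d : M} : mk a b = mk c d ↔ a + d = c + b :=
  ⟨fun h => Quotient.exact h, fun h => Quotient.sound h⟩

theorem ind {P : Zr M → Prop} (h : ∀ a b, P (mk a b)) (x : Zr M) : P x :=
  Quotient.ind (fun p => h p.1 p.2) x

instance : Zero (Zr M) := ⟨mk 0 0⟩
instance : One (Zr M) := ⟨mk 1 0⟩
instance : Neg (Zr M) := ⟨Quotient.map (fun p => (p.2, p.1)) (by
  intro p q h
  have h' : p.1 + q.2 = q.1 + p.2 := h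
  show p.2 + q.1 = q.2 + p.1
  rw [add_comm p.2, add_comm q.2, h'])⟩
instance : Add (Zr M) := ⟨Quotient.map₂ (fun p q => (p.1 + q.1, p.2 + q.2)) (by
  intro p p' h q q' k
  have h' : p.1 + p'.2 = p'.1 + p.2 := h
  have k' : q.1 + q'.2 = q'.1 + q.2 := k
  show (p.1 + q.1) + (p'.2 + q'.2) = (p'.1 + q'.1) + (p.2 + q.2)
  calc (p.1 + q.1) + (p'.2 + q'.2) = (p.1 + p'.2) + (q.1 + q'.2) := by ring
    _ = (p'.1 + p.2) + (q'.1 + q.2) := by rw [h', k']
    _ = _ := by ring)⟩
instance : Mul (Zr M) := ⟨Quotient.map₂ (fun p q => (p.1 * q.1 + p.2 * q.2, p.1 * q.2 + p.2 * q.1))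
  (by
  intro p p' h q q' k
  have h' : p.1 + p'.2 = p'.1 + p.2 := h
  have k' : q.1 + q'.2 = q'.1 + q.2 := k
  show (p.1 * q.1 + p.2 * q.2) + (p'.1 * q'.2 + p'.2 * q'.1) =
    (p'.1 * q'.1 + p'.2 * q'.2) + (p.1 * q.2 + p.2 * q.1)
  have e : (p.1 * q.1 + p.2 * q.2) + (p'.1 * q'.2 + p'.2 * q'.1) + (p'.2 * q.1 + p'.1 * q.2) =
    (p'.1 * q'.1 + p'.2 * q'.2) + (p.1 * q.2 + p.2 * q.1) + (p'.2 * q.1 + p'.1 * q.2) := by
    calc (p.1 * q.1 + p.2 * q.2) + (p'.1 * q'.2 + p'.2 * q'.1) + (p'.2 * q.1 + p'.1 * q.2)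
        = (p.1 + p'.2) * q.1 + (p'.1 + p.2) * q.2 + p'.1 * q'.2 + p'.2 * q'.1 := by ring
      _ = (p'.1 + p.2) * q.1 + (p.1 + p'.2) * q.2 + p'.1 * q'.2 + p'.2 * q'.1 := by rw [h']
      _ = p'.1 * (q.1 + q'.2) + p'.2 * (q'.1 + q.2) + p.2 * q.1 + p.1 * q.2 := by ring
      _ = p'.1 * (q'.1 + q.2) + p'.2 * (q.1 + q'.2) + p.2 * q.1 + p.1 * q.2 := by rw [k']
      _ = _ := by ring
  exact add_right_cancel e)⟩

theorem zero_def : (0 : Zr M) = mk 0 0 := rfl
theorem one_def : (1 : Zr M) = mk 1 0 := rfl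
theorem neg_mk (a b : M) : -(mk a b) = mk b a := rfl
theorem mk_add (a b c d : M) : mk a b + mk c d = mk (a + c) (b + d) := rfl
theorem mk_mul (a b c d : M) : mk a b * mk c d = mk (a * c + b * d) (a * d + b * c) := rfl

instance : CommRing (Zr M) where
  add_assoc x y z := by
    induction x using Zr.ind; induction y using Zr.ind; induction z using Zr.ind
    simp only [mk_add, mk_eq]; ring
  zero_add x := by
    induction x using Zr.ind
    simp only [zero_def, mk_add, mk_eq]; ring
  add_zero x := by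
    induction x using Zr.ind
    simp only [zero_def, mk_add, mk_eq]; ring
  add_comm x y := by
    induction x using Zr.ind; induction y using Zr.ind
    simp only [mk_add, mk_eq]; ring
  neg_add_cancel x := by
    induction x using Zr.ind
    simp only [zero_def, mk_add, neg_mk, mk_eq]; ring
  left_distrib x y z := by
    induction x using Zr.ind; induction y using Zr.ind; induction z using Zr.ind
    simp only [mk_add, mk_mul, mk_eq]; ring
  right_distrib x y z := by
    induction x using Zr.ind; induction y using Zr.ind; induction z using Zr.ind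
    simp only [mk_add, mk_mul, mk_eq]; ring
  zero_mul x := by
    induction x using Zr.ind
    simp only [zero_def, mk_mul, mk_eq]; ring
  mul_zero x := by
    induction x using Zr.ind
    simp only [zero_def, mk_mul, mk_eq]; ring
  mul_assoc x y z := by
    induction x using Zr.ind; induction y using Zr.ind; induction z using Zr.ind
    simp only [mk_mul, mk_eq]; ring
  one_mul x := by
    induction x using Zr.ind
    simp only [one_def, mk_mul, mk_eq]; ring
  mul_one x := by
    induction x using Zr.ind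
    simp only [one_def, mk_mul, mk_eq]; ring
  mul_comm x y := by
    induction x using Zr.ind; induction y using Zr.ind
    simp only [mk_mul, mk_eq]; ring
  nsmul := nsmulRec
  zsmul := zsmulRec

instance : LE (Zr M) := ⟨fun x y => Quotient.liftOn₂ x y (fun p q => p.1 + q.2 ≤ q.1 + p.2) (by
  intro p q p' q' h k
  have h' : p.1 + p'.2 = p'.1 + p.2 := h
  have k' : q.1 + q'.2 = q'.1 + q.2 := k
  apply propext
  show p.1 + q.2 ≤ q.1 + p.2 ↔ p'.1 + q'.2 ≤ q'.1 + p'.2
  have e1 : p.1 + q.2 + (p'.2 + q'.2) = p'.1 + q'.2 + (p.2 + q.2) := by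
    calc p.1 + q.2 + (p'.2 + q'.2) = (p.1 + p'.2) + (q.2 + q'.2) := by ring
      _ = (p'.1 + p.2) + (q.2 + q'.2) := by rw [h']
      _ = _ := by ring
  have e2 : q.1 + p.2 + (p'.2 + q'.2) = q'.1 + p'.2 + (p.2 + q.2) := by
    calc q.1 + p.2 + (p'.2 + q'.2) = (q.1 + q'.2) + (p.2 + p'.2) := by ring
      _ = (q'.1 + q.2) + (p.2 + p'.2) := by rw [k']
      _ = _ := by ring
  constructor
  · intro h
    have h2 : p.1 + q.2 + (p'.2 + q'.2) ≤ q.1 + p.2 + (p'.2 + q'.2) := add_le_add_left h _
    rw [e1, e2] at h2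
    exact le_of_add_le_add_right h2
  · intro h
    have h2 : p'.1 + q'.2 + (p.2 + q.2) ≤ q'.1 + p'.2 + (p.2 + q.2) := add_le_add_left h _
    rw [← e1, ← e2] at h2
    exact le_of_add_le_add_right h2)⟩

theorem mk_le (a b c d : M) : mk a b ≤ mk c d ↔ a + d ≤ c + b := Iff.rfl

noncomputable instance : LinearOrder (Zr M) where
  le_refl x := by
    induction x using Zr.ind
    exact (mk_le _ _ _ _).mpr le_rfl
  le_trans x y z h k := by
    induction x using Zr.ind with | h a b
    induction y using Zr.ind with | h c d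
    induction z using Zr.ind with | h e f
    rw [mk_le] at h k ⊢
    rw [← add_le_add_iff_right (c + d)]
    calc a + f + (c + d) = (a + d) + (c + f) := by ring
      _ ≤ (c + b) + (e + d) := add_le_add h k
      _ = _ := by ring
  le_antisymm x y h k := by
    induction x using Zr.ind
    induction y using Zr.ind
    rw [mk_le] at h k
    exact mk_eq.mpr (le_antisymm h k)
  le_total x y := by
    induction x using Zr.ind
    induction y using Zr.ind
    rw [mk_le, mk_le]
    exact le_total _ _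
  toDecidableLE := Classical.decRel _

/-- the embedding of the model in its ring of integers -/
@[coe] def ofM (a : M) : Zr M := mk a 0

instance : Coe M (Zr M) := ⟨ofM⟩

@[simp, norm_cast] theorem coe_add (a b : M) : ((a + b : M) : Zr M) = (a : Zr M) + (b : Zr M) := by
  show mk (a + b) 0 = mk a 0 + mk b 0
  rw [mk_add, mk_eq]; ring

@[simp, norm_cast] theorem coe_mul (a b : M) : ((a * b : M) : Zr M) = (a : Zr M) * (b : Zr M) := by
  show mk (a * b) 0 = mk a 0 * mk b 0
  rw [mk_mul, mk_eq]; ring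

@[simp, norm_cast] theorem coe_zero : ((0 : M) : Zr M) = 0 := rfl
@[simp, norm_cast] theorem coe_one : ((1 : M) : Zr M) = 1 := rfl

@[simp, norm_cast] theorem coe_inj {a b : M} : (a : Zr M) = (b : Zr M) ↔ a = b := by
  show mk a 0 = mk b 0 ↔ _
  rw [mk_eq, add_zero, add_zero]

@[simp, norm_cast] theorem coe_le {a b : M} : (a : Zr M) ≤ (b : Zr M) ↔ a ≤ b := by
  show mk a 0 ≤ mk b 0 ↔ _
  rw [mk_le, add_zero, add_zero]

@[simp, norm_cast] theorem coe_lt {a b : M} : (a : Zr M) < (b : Zr M) ↔ a < b := by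
  rw [← not_le, coe_le, not_le]

theorem coe_nonneg (a : M) : (0 : Zr M) ≤ (a : Zr M) := by
  rw [← coe_zero, coe_le]; exact zero_le

theorem mk_eq_sub (a b : M) : mk a b = (a : Zr M) - (b : Zr M) := by
  rw [sub_eq_add_neg]
  show mk a b = mk a 0 + -(mk b 0)
  rw [neg_mk, mk_add, mk_eq]; ring

instance : IsOrderedAddMonoid (Zr M) where
  add_le_add_left x y h z := by
    induction x using Zr.ind with | h a b
    induction y using Zr.ind with | h c d
    induction z using Zr.ind with | h e f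
    rw [mk_le] at h
    rw [mk_add, mk_add, mk_le]
    calc a + e + (d + f) = (a + d) + (e + f) := by ring
      _ ≤ (c + b) + (e + f) := by gcongr
      _ = _ := by ring

theorem nonneg_iff {x : Zr M} : 0 ≤ x ↔ ∃ a : M, x = (a : Zr M) := by
  constructor
  · intro h
    induction x using Zr.ind with | h a b
    rw [zero_def, mk_le, zero_add, add_zero] at h
    obtain ⟨c, hc⟩ := exists_add_of_le h
    refine ⟨c, ?_⟩
    show mk a b = mk c 0
    rw [mk_eq, hc]; ring
  · rintro ⟨a, rfl⟩
    exact coe_nonneg a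

instance : Nontrivial (Zr M) := ⟨0, 1, by
  intro h
  have : ((0 : M) : Zr M) = ((1 : M) : Zr M) := h
  rw [coe_inj] at this
  exact zero_ne_one this⟩

instance : ZeroLEOneClass (Zr M) := ⟨by
  have := coe_nonneg (1 : M)
  exact this⟩

instance : IsStrictOrderedRing (Zr M) := IsStrictOrderedRing.of_mul_pos (by
  intro x y hx hy
  obtain ⟨a, rfl⟩ := nonneg_iff.mp hx.le
  obtain ⟨b, rfl⟩ := nonneg_iff.mp hy.le
  rw [← coe_zero, coe_lt] at hx hy
  rw [← coe_mul, ← coe_zero, coe_lt]
  exact mul_pos hx hy)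

/-- discreteness -/
theorem lt_iff_add_one_le {x y : Zr M} : x < y ↔ x + 1 ≤ y := by
  constructor
  · intro h
    have h1 : 0 ≤ y - x := by linarith
    obtain ⟨a, ha⟩ := nonneg_iff.mp h1
    have h2 : (0 : Zr M) < (a : Zr M) := by rw [← ha]; linarith
    rw [← coe_zero, coe_lt] at h2
    have h3 : (1 : M) ≤ a := by
      have := succ_le_iff.mpr h2
      rwa [zero_add] at this
    have h4 : (1 : Zr M) ≤ (a : Zr M) := by rw [← coe_one, coe_le]; exact h3
    linarith
  · intro h
    linarith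

@[simp, norm_cast] theorem coe_pow (a : M) (n : ℕ) : ((a ^ n : M) : Zr M) = (a : Zr M) ^ n := by
  induction n with
  | zero => simp
  | succ n ih => rw [pow_succ, pow_succ, coe_mul, ih]

@[simp, norm_cast] theorem coe_natCast (n : ℕ) : ((n : M) : Zr M) = (n : Zr M) := by
  induction n with
  | zero => simp
  | succ n ih => push_cast; rw [ih]

@[simp, norm_cast] theorem coe_ofNat (n : ℕ) [n.AtLeastTwo] :
    ((OfNat.ofNat n : M) : Zr M) = (OfNat.ofNat n : Zr M) := by
  rw [← Nat.cast_ofNat (R := M), ← Nat.cast_ofNat (R := Zr M)]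
  exact coe_natCast _

/-- divisibility in the model and in the ring -/
theorem coe_dvd {a b : M} : (a : Zr M) ∣ (b : Zr M) ↔ a ∣ b := by
  constructor
  · rintro ⟨c, hc⟩
    rcases le_total 0 c with h | h
    · obtain ⟨e, rfl⟩ := nonneg_iff.mp h
      rw [← coe_mul, coe_inj] at hc
      exact ⟨e, hc⟩
    · have h1 : (b : Zr M) ≤ 0 := by
        rw [hc]; exact mul_nonpos_of_nonneg_of_nonpos (coe_nonneg a) h
      have h2 : (b : Zr M) = 0 := le_antisymm h1 (coe_nonneg b)
      rw [← coe_zero, coe_inj] at h2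
      rw [h2]; exact dvd_zero a
  · rintro ⟨c, rfl⟩
    rw [coe_mul]; exact dvd_mul_right _ _

/-- a divisor of a positive element is at most this element -/
theorem le_of_dvd {x y : Zr M} (hy : 0 < y) (h : x ∣ y) : x ≤ y := by
  rcases le_or_gt x 0 with hx | hx
  · exact hx.trans hy.le
  obtain ⟨z, rfl⟩ := h
  have hz : 0 < z := by
    by_contra hz
    push Not at hz
    have := mul_nonpos_of_nonneg_of_nonpos hx.le hz
    linarith
  have : 1 ≤ z := by
    have := lt_iff_add_one_le.mp hz
    linarith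
  nlinarith

/-- division with remainder -/
theorem exists_divmod (x : Zr M) {m : Zr M} (hm : 0 < m) : ∃ q r : Zr M, x = q * m + r ∧ 0 ≤ r ∧
    r < m := by
  obtain ⟨m', rfl⟩ := nonneg_iff.mp hm.le
  have hm' : 0 < m' := by rw [← coe_zero, coe_lt] at hm; exact hm
  have key : ∀ a : M, ∃ q r : M, a = q * m' + r ∧ r < m' := by
    intro a
    obtain ⟨r, ⟨q, hq⟩, hr⟩ := exists_rem a hm'
    exact ⟨q, r, hq, hr⟩
  rcases le_total 0 x with h | h
  · obtain ⟨a, rfl⟩ := nonneg_iff.mp h
    obtain ⟨q, r, hq, hr⟩ := key a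
    exact ⟨q, r, by rw [hq]; push_cast; rfl, coe_nonneg r, coe_lt.mpr hr⟩
  · have h' : 0 ≤ -x := by linarith
    obtain ⟨a, ha⟩ := nonneg_iff.mp h'
    obtain ⟨q, r, hq, hr⟩ := key a
    rcases eq_or_ne r 0 with h0 | h0
    · subst h0
      refine ⟨-(q : Zr M), 0, ?_, le_rfl, hm⟩
      have : x = -(a : Zr M) := by rw [← ha]; ring
      rw [this, hq]; push_cast; ring
    · refine ⟨-(q : Zr M) - 1, (m' : Zr M) - (r : Zr M), ?_, ?_, ?_⟩
      · have : x = -(a : Zr M) := by rw [← ha]; ring
        rw [this, hq]; push_cast; ring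
      · have := coe_lt.mpr hr; linarith
      · have : (0 : Zr M) < (r : Zr M) := by
          rw [← coe_zero, coe_lt]; exact pos_of_ne h0
        linarith

end Zr

end ring

/-! ### Definability for ring-valued functions -/

section definability

variable {M : Type} [PAModel M]

/-- Definable functions with values in the ring of integers. -/
def DefZ (f : (ℕ → M) → Zr M) : Prop :=
  ∃ p q : (ℕ → M) → M, DefF p ∧ DefF q ∧ ∀ v, f v = (p v : Zr M) - (q v : Zr M)

namespace DefZ

theorem congr {f g : (ℕ → M) → Zr M} (hf : DefZ f) (h : ∀ v, f v = g v) : DefZ g := by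
  obtain ⟨p, q, hp, hq, e⟩ := hf
  exact ⟨p, q, hp, hq, fun v => (h v).symm.trans (e v)⟩

theorem coe {f : (ℕ → M) → M} (hf : DefF f) : DefZ (fun v => (f v : Zr M)) :=
  ⟨f, fun _ => 0, hf, DefF.const 0, fun v => by simp⟩

theorem const (c : Zr M) : DefZ (M := M) (fun _ => c) := by
  induction c using Zr.ind with | h a b
  exact ⟨fun _ => a, fun _ => b, DefF.const a, DefF.const b, fun v => Zr.mk_eq_sub a b⟩

theorem add {f g : (ℕ → M) → Zr M} (hf : DefZ f) (hg : DefZ g) : DefZ (fun v => f v + g v) := by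
  obtain ⟨p, q, hp, hq, e⟩ := hf
  obtain ⟨p', q', hp', hq', e'⟩ := hg
  refine ⟨fun v => p v + p' v, fun v => q v + q' v, hp.add hp', hq.add hq', fun v => ?_⟩
  beta_reduce; rw [e, e']; push_cast; ring

theorem neg {f : (ℕ → M) → Zr M} (hf : DefZ f) : DefZ (fun v => -(f v)) := by
  obtain ⟨p, q, hp, hq, e⟩ := hf
  refine ⟨q, p, hq, hp, fun v => ?_⟩
  beta_reduce; rw [e]; ring

theorem sub {f g : (ℕ → M) → Zr M} (hf : DefZ f) (hg : DefZ g) : DefZ (fun v => f v - g v) :=
  (hf.add hg.neg).congr (fun v => by ring)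

theorem mul {f g : (ℕ → M) → Zr M} (hf : DefZ f) (hg : DefZ g) : DefZ (fun v => f v * g v) := by
  obtain ⟨p, q, hp, hq, e⟩ := hf
  obtain ⟨p', q', hp', hq', e'⟩ := hg
  refine ⟨fun v => p v * p' v + q v * q' v, fun v => p v * q' v + q v * p' v,
    (hp.mul hp').add (hq.mul hq'), (hp.mul hq').add (hq.mul hp'), fun v => ?_⟩
  beta_reduce; rw [e, e']; push_cast; ring

theorem npow {f : (ℕ → M) → Zr M} (hf : DefZ f) (n : ℕ) : DefZ (fun v => f v ^ n) := by
  induction n with
  | zero => simpa using const (M := M) 1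
  | succ n ih => simpa only [pow_succ] using ih.mul hf

theorem ren {f : (ℕ → M) → Zr M} (ρ : ℕ → ℕ) (h : DefZ f) : DefZ (fun v => f (fun n => v (ρ n))) := by
  obtain ⟨p, q, hp, hq, e⟩ := h
  exact ⟨_, _, hp.ren ρ, hq.ren ρ, fun v => e _⟩

theorem eq {f g : (ℕ → M) → Zr M} (hf : DefZ f) (hg : DefZ g) : Def (fun v => f v = g v) := by
  obtain ⟨p, q, hp, hq, e⟩ := hf
  obtain ⟨p', q', hp', hq', e'⟩ := hg
  refine Def.congr (R := fun v => p v + q' v = p' v + q v) (Def.eq (hp.add hq') (hp'.add hq)) ?_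
  intro v
  rw [e, e', ← Zr.coe_inj]
  push_cast
  constructor
  · intro h; linear_combination h
  · intro h; linear_combination h

theorem le {f g : (ℕ → M) → Zr M} (hf : DefZ f) (hg : DefZ g) : Def (fun v => f v ≤ g v) := by
  obtain ⟨p, q, hp, hq, e⟩ := hf
  obtain ⟨p', q', hp', hq', e'⟩ := hg
  refine Def.congr (R := fun v => p v + q' v ≤ p' v + q v) (Def.le (hp.add hq') (hp'.add hq)) ?_
  intro v
  rw [e, e', ← Zr.coe_le]
  push_cast
  constructor
  · intro h; linarith
  · intro h; linarith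

theorem lt {f g : (ℕ → M) → Zr M} (hf : DefZ f) (hg : DefZ g) : Def (fun v => f v < g v) :=
  Def.congr (Def.not (DefZ.le hg hf)) (fun _ => not_le)

theorem dvd {f g : (ℕ → M) → Zr M} (hf : DefZ f) (hg : DefZ g) : Def (fun v => f v ∣ g v) := by
  have h : Def (fun v => ∃ s t : M, g v = f v * ((s : Zr M) - (t : Zr M))) := by
    apply Def.ex
    apply Def.ex
    exact DefZ.eq (hg.ren (fun n => n + 2))
      ((hf.ren (fun n => n + 2)).mul ((coe (DefF.var 1)).sub (coe (DefF.var 0))))
  refine Def.congr h fun v => ?_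
  constructor
  · rintro ⟨s, t, h⟩
    exact ⟨_, h⟩
  · rintro ⟨c, hc⟩
    induction c using Zr.ind with | h a b
    exact ⟨a, b, by rw [hc, Zr.mk_eq_sub]⟩

end DefZ

end definability


/-- congruences in the model, in terms of the ring of integers -/
theorem cg_iff {M : Type} [PAModel M] {m a b : M} :
    Cg m a b ↔ (m : Zr M) ∣ (a : Zr M) - (b : Zr M) := by
  constructor
  · rintro ⟨x, y, h⟩
    have h' := congrArg (fun x : M => (x : Zr M)) h
    push_cast at h'
    exact ⟨(y : Zr M) - (x : Zr M), by linear_combination h'⟩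
  · rintro ⟨c, hc⟩
    induction c using Zr.ind with | h s t
    rw [Zr.mk_eq_sub] at hc
    refine ⟨t, s, ?_⟩
    rw [← Zr.coe_inj]
    push_cast
    linear_combination hc

end Pool.Agent.H87.EP
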