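import Pool.Agent.H4.EPB.Stm

/-! Part BB10 of the project EP: from codes to witnesses. -/

set_option autoImplicit false

namespace Pool.Agent.H87.EP

open Pool.Agent.Helper687.Arith Pool.Agent.H51.EP Pool.Agent.H4.EPB

theorem bb10_apv_cg {M : Type} [PAModel M] {p : M} (m : ℕ) {a w v v' : ℕ → M}
    (h : ∀ j, j < m → Cg p (a j) (w j)) (h' : ∀ j, Cg p (v j) (v' j)) (i : ℕ) :
    Cg p (apv m a v i) (apv m w v' i) := by
  unfold apv
  split_ifs with hi
  · exact h i hi
  · exact h' _

theorem bb10_apv_le {M : Type} [PAModel M] (m : ℕ) {a w v v' : ℕ → M}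
    (h : ∀ j, j < m → a j ≤ w j) (h' : ∀ j, v j ≤ v' j) (i : ℕ) :
    apv m a v i ≤ apv m w v' i := by
  unfold apv
  split_ifs with hi
  · exact h i hi
  · exact h' _

theorem BB10 (h3 : S_BB3) (h4 : S_BB4) (h5 : S_BB5) : S_BB10 := by
  intro M _ m t s y u v a hcore i hi
  obtain ⟨c, hc, ha, hcg⟩ := hcore
  set Q := Bd m t s y u v with hQ
  have hQ' : Q = t.ev (apv m (fun _ => u) (cns y v)) + s.ev (apv m (fun _ => u) (cns y v)) + y + u
      + 3 := rfl
  have h3Q : (3 : M) ≤ Q := by rw [hQ']; exact le_add_self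
  have hyQ : y ≤ Q := by
    rw [hQ']
    calc y ≤ t.ev (apv m (fun _ => u) (cns y v)) + s.ev (apv m (fun _ => u) (cns y v)) + y :=
          le_add_self
      _ ≤ _ := by rw [add_assoc _ u 3]; exact le_self_add
  have h23 : (2 : M) < 3 := by
    have : (3 : M) = 2 + 1 := by norm_num
    rw [this]
    exact lt_succ_iff.mpr le_rfl
  have hMd : Md Q (fc Q) c y := by
    refine ⟨fun j hj hjQ => dvd_fc hj hjQ, ?_, hc, hyQ⟩
    obtain ⟨e, he⟩ := dvd_fc (i := (3 : M)) (lt_of_le_of_lt zero_le h23) h3Q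
    have he0 : e ≠ 0 := by
      rintro rfl
      rw [mul_zero] at he
      exact absurd he (fc_pos Q).ne'
    have he1 : 1 ≤ e := by
      have := succ_le_iff.mpr (pos_of_ne he0)
      rwa [zero_add] at this
    calc (2 : M) < 3 := h23
      _ = 3 * 1 := (mul_one _).symm
      _ ≤ 3 * e := by gcongr
      _ = fc Q := he.symm
  obtain ⟨h51, h52, -⟩ := h5 M Q (fc Q) c y hMd
  obtain ⟨μ, hμ⟩ := h51 i hi
  obtain ⟨hμ1, hμc, hμb, -, hμq⟩ := h52 i μ hi hμ
  obtain ⟨p, hp, hpμ⟩ := h3 M μ hμ1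
  have hQp : Q < p := by
    by_contra hle
    push Not at hle
    obtain ⟨x, z, hxz⟩ := hμq p (zero_lt_one.trans hp.1) hle
    have h1 : p ∣ z * μ := hpμ.mul_left _
    have h2 : p ∣ z * μ + 1 := ⟨x, by rw [← hxz, mul_comm]⟩
    have h3' : p ∣ 1 := (Nat.rec (motive := fun _ => p ∣ 1) (by
      obtain ⟨e, he⟩ := h1
      obtain ⟨f, hf⟩ := h2
      have hef : e < f := by
        by_contra hfe
        push Not at hfe
        have : z * μ + 1 ≤ z * μ := by
          rw [hf, he]
          gcongr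
        exact absurd this (not_le.mpr (lt_succ_iff.mpr le_rfl))
      obtain ⟨g, hg⟩ := exists_add_of_le hef.le
      refine ⟨g, ?_⟩
      rw [hg, mul_add, ← he] at hf
      exact add_left_cancel hf) (fun _ h => h) 0)
    obtain ⟨e, he⟩ := h3'
    have he0 : e ≠ 0 := by
      rintro rfl
      rw [mul_zero] at he
      exact one_ne_zero he
    have he1 : 1 ≤ e := by
      have := succ_le_iff.mpr (pos_of_ne he0)
      rwa [zero_add] at this
    have : p ≤ 1 := by
      calc p = p * 1 := (mul_one _).symm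
        _ ≤ p * e := by gcongr
        _ = 1 := he.symm
    exact absurd hp.1 (not_lt.mpr this)
  have hpb : p ∣ bn c y := hpμ.trans hμb
  have hw : ∀ j, ∃ z, j < m → z < u + 1 ∧ Cg p (a j) z := by
    intro j
    by_cases hj : j < m
    · have h1 : p ∣ ff (a j) (u + 1) := by
        rw [← fc_mul_bn]
        exact (hpb.trans (ha j hj)).mul_left _
      obtain ⟨z, hz, hz'⟩ := h4.1 M p (a j) (u + 1) hp h1
      exact ⟨z, fun _ => ⟨hz, hz'⟩⟩
    · exact ⟨0, fun h => absurd h hj⟩
  choose w hw using hw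
  refine ⟨w, ?_⟩
  have hv : ∀ j, Cg p (cns c v j) (cns i v j) := by
    intro j
    cases j with
    | zero => exact cg_of_dvd hpμ hμc
    | succ j => exact cg_rfl _ _
  have ht := ev_cg t (bb10_apv_cg m (fun j hj => (hw j hj).2) hv)
  have hs := ev_cg s (bb10_apv_cg m (fun j hj => (hw j hj).2) hv)
  have hts : Cg p (t.ev (apv m w (cns i v))) (s.ev (apv m w (cns i v))) :=
    cg_trans (cg_symm ht) (cg_trans (cg_of_dvd hpb hcg) hs)
  have hle : ∀ j, apv m w (cns i v) j ≤ apv m (fun _ => u) (cns y v) j := by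
    apply bb10_apv_le
    · intro j hj
      exact lt_succ_iff.mp (hw j hj).1
    · intro j
      cases j with
      | zero => exact hi.le
      | succ j => exact le_rfl
  refine cg_eq_of_lt hts ?_ ?_
  · refine lt_of_le_of_lt ((ev_mono t hle).trans ?_) hQp
    rw [hQ', add_assoc, add_assoc, add_assoc]
    exact le_self_add
  · refine lt_of_le_of_lt ((ev_mono s hle).trans ?_) hQp
    rw [hQ', add_assoc, add_assoc]
    refine le_trans ?_ le_self_add
    exact le_add_self

end Pool.Agent.H87.EP
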