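import Pool.Agent.H87.EP.PStm

/-! Part PELL1: identities of the Pell sequences. -/

set_option autoImplicit false

namespace Pool.Agent.H87.EP

open Pool.Agent.Helper687.Arith Pool.Agent.H51.EP

section

variable {M : Type} [PAModel M]

theorem X_succ_coe {a : M} (ha : 1 < a) (n : M) :
    ((X a (n + 1) : M) : Zr M) = (a : Zr M) * X a n + ((a : Zr M) ^ 2 - 1) * Y a n := by
  rw [X_succ]
  push_cast
  rw [dd_coe ha]
  ring

theorem Y_succ_coe {a : M} (_ha : 1 < a) (n : M) :
    ((Y a (n + 1) : M) : Zr M) = ((X a n : M) : Zr M) + a * Y a n := by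
  rw [Y_succ]
  push_cast
  ring

theorem pell_eq {a : M} (ha : 1 < a) (n : M) :
    ((X a n : M) : Zr M) ^ 2 - ((a : Zr M) ^ 2 - 1) * ((Y a n : M) : Zr M) ^ 2 = 1 := by
  refine ind (P := fun n => ((X a n : M) : Zr M) ^ 2 - ((a : Zr M) ^ 2 - 1) *
    ((Y a n : M) : Zr M) ^ 2 = 1) (by (repeat' first | with_reducible apply Pool.Agent.H87.EP.DefF.Y | with_reducible apply Pool.Agent.H87.EP.DefF.X | with_reducible apply Pool.Agent.H87.EP.DefF.dd | with_reducible apply Pool.Agent.Helper687.Arith.DefF.snd | with_reducible apply Pool.Agent.Helper687.Arith.DefF.fst | with_reducible apply Pool.Agent.H87.EP.DefZ.eq | with_reducible apply Pool.Agent.H87.EP.DefZ.lt | with_reducible apply Pool.Agent.H87.EP.DefZ.le | with_reducible apply Pool.Agent.H87.EP.DefZ.dvd | with_reducible exact Pool.Agent.H87.EP.DefZ.const _ | with_reducible apply Pool.Agent.H87.EP.DefZ.coe | with_reducible apply Pool.Agent.H87.EP.DefZ.add | with_reducible apply Pool.Agent.H87.EP.DefZ.mul | with_reducible apply Pool.Agent.H87.EP.DefZ.sub | with_reducible apply Pool.Agent.H87.EP.DefZ.neg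 | with_reducible apply Pool.Agent.H87.EP.DefZ.npow | with_reducible apply Pool.Agent.H51.EP.Def.cg | with_reducible apply Pool.Agent.H51.EP.DefF.pr | with_reducible apply Pool.Agent.H51.EP.DefF.bn | with_reducible apply Pool.Agent.H51.EP.DefF.ff | with_reducible apply Pool.Agent.H51.EP.DefF.fc | with_reducible apply Pool.Agent.H51.EP.DefF.pw | with_reducible apply Pool.Agent.H51.EP.DefF.sb | with_reducible apply Pool.Agent.H51.EP.DefF.rc | with_reducible apply Pool.Agent.H51.EP.Def.dvd | assumption | with_reducible exact Pool.Agent.Helper687.Arith.DefF.var _ | with_reducible exact Pool.Agent.Helper687.Arith.DefF.const _ | with_reducible exact Pool.Agent.Helper687.Arith.Def.const _ | with_reducible apply Pool.Agent.Helper687.Arith.DefF.val | with_reducible apply Pool.Agent.Helper687.Arith.DefF.pow2 | with_reducible apply Pool.Agent.Helper687.Arith.Def.and | with_reducible apply Pool.Agent.Helper687.Arith.Def.or | with_reducible apply Pool.Agent.Helper687.Arith.Def.iff | with_reducible apply Pool.Agent.Helper687.Arith.Def.not | with_reducible apply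 Pool.Agent.Helper687.Arith.Def.ex | with_reducible apply Pool.Agent.Helper687.Arith.Def.all | with_reducible apply Pool.Agent.Helper687.Arith.Def.imp | with_reducible apply Pool.Agent.Helper687.Arith.Def.eq | with_reducible apply Pool.Agent.Helper687.Arith.Def.lt | with_reducible apply Pool.Agent.Helper687.Arith.Def.le | with_reducible apply Pool.Agent.Helper687.Arith.DefF.add | with_reducible apply Pool.Agent.Helper687.Arith.DefF.mul | with_reducible apply Pool.Agent.Helper687.Arith.DefF.the)) ?_ ?_ n
  · rw [X_zero, Y_zero]; push_cast; ring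
  · intro n ih
    rw [X_succ_coe ha, Y_succ_coe ha]
    linear_combination ih

theorem pell_add {a : M} (ha : 1 < a) (m n : M) :
    ((X a (m + n) : M) : Zr M) = ((X a m : M) : Zr M) * X a n +
      ((a : Zr M) ^ 2 - 1) * Y a m * Y a n ∧
    ((Y a (m + n) : M) : Zr M) = ((X a m : M) : Zr M) * Y a n + ((Y a m : M) : Zr M) * X a n := by
  refine ind (P := fun n => ((X a (m + n) : M) : Zr M) = ((X a m : M) : Zr M) * X a n +
      ((a : Zr M) ^ 2 - 1) * Y a m * Y a n ∧
    ((Y a (m + n) : M) : Zr M) = ((X a m : M) : Zr M) * Y a n + ((Y a m : M) : Zr M) * X a n)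
    (by (repeat' first | with_reducible apply Pool.Agent.H87.EP.DefF.Y | with_reducible apply Pool.Agent.H87.EP.DefF.X | with_reducible apply Pool.Agent.H87.EP.DefF.dd | with_reducible apply Pool.Agent.Helper687.Arith.DefF.snd | with_reducible apply Pool.Agent.Helper687.Arith.DefF.fst | with_reducible apply Pool.Agent.H87.EP.DefZ.eq | with_reducible apply Pool.Agent.H87.EP.DefZ.lt | with_reducible apply Pool.Agent.H87.EP.DefZ.le | with_reducible apply Pool.Agent.H87.EP.DefZ.dvd | with_reducible exact Pool.Agent.H87.EP.DefZ.const _ | with_reducible apply Pool.Agent.H87.EP.DefZ.coe | with_reducible apply Pool.Agent.H87.EP.DefZ.add | with_reducible apply Pool.Agent.H87.EP.DefZ.mul | with_reducible apply Pool.Agent.H87.EP.DefZ.sub | with_reducible apply Pool.Agent.H87.EP.DefZ.neg | with_reducible apply Pool.Agent.H87.EP.DefZ.npow | with_reducible apply Pool.Agent.H51.EP.Def.cg | with_reducible apply Pool.Agent.H51.EP.DefF.pr | with_reducible apply Pool.Agent.H51.EP.DefF.bn | with_reducible apply Pool.Agent.H51.EP.DefF.ff | with_reducible apply Pool.Agent.H51.EP.DefF.fc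 | with_reducible apply Pool.Agent.H51.EP.DefF.pw | with_reducible apply Pool.Agent.H51.EP.DefF.sb | with_reducible apply Pool.Agent.H51.EP.DefF.rc | with_reducible apply Pool.Agent.H51.EP.Def.dvd | assumption | with_reducible exact Pool.Agent.Helper687.Arith.DefF.var _ | with_reducible exact Pool.Agent.Helper687.Arith.DefF.const _ | with_reducible exact Pool.Agent.Helper687.Arith.Def.const _ | with_reducible apply Pool.Agent.Helper687.Arith.DefF.val | with_reducible apply Pool.Agent.Helper687.Arith.DefF.pow2 | with_reducible apply Pool.Agent.Helper687.Arith.Def.and | with_reducible apply Pool.Agent.Helper687.Arith.Def.or | with_reducible apply Pool.Agent.Helper687.Arith.Def.iff | with_reducible apply Pool.Agent.Helper687.Arith.Def.not | with_reducible apply Pool.Agent.Helper687.Arith.Def.ex | with_reducible apply Pool.Agent.Helper687.Arith.Def.all | with_reducible apply Pool.Agent.Helper687.Arith.Def.imp | with_reducible apply Pool.Agent.Helper687.Arith.Def.eq | with_reducible apply Pool.Agent.Helper687.Arith.Def.lt | with_reducible apply Pool.Agent.Helper687.Arith.Def.le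 | with_reducible apply Pool.Agent.Helper687.Arith.DefF.add | with_reducible apply Pool.Agent.Helper687.Arith.DefF.mul | with_reducible apply Pool.Agent.Helper687.Arith.DefF.the)) ?_ ?_ n
  · rw [add_zero, X_zero, Y_zero]; push_cast; constructor <;> ring
  · rintro n ⟨ih1, ih2⟩
    rw [← add_assoc, X_succ_coe ha, Y_succ_coe ha, X_succ_coe ha, Y_succ_coe ha, ih1, ih2]
    constructor <;> ring

end

theorem pellId (M : Type) [PAModel M] : PellId M where
  one := by
    intro a
    have h1 : (1 : M) = 0 + 1 := (zero_add 1).symm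
    rw [h1, X_succ, Y_succ, X_zero, Y_zero]
    constructor <;> simp
  eq := fun ha n => pell_eq ha n
  X_succ := fun ha n => X_succ_coe ha n
  Y_succ := fun ha n => Y_succ_coe ha n
  X_add := fun ha m n => (pell_add ha m n).1
  Y_add := fun ha m n => (pell_add ha m n).2
  X_sub := by
    intro a ha k n
    rw [(pell_add ha k n).1, (pell_add ha k n).2]
    linear_combination (-((X a k : M) : Zr M)) * pell_eq ha n
  Y_sub := by
    intro a ha k n
    rw [(pell_add ha k n).1, (pell_add ha k n).2]
    linear_combination (-((Y a k : M) : Zr M)) * pell_eq ha n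
  X_ss := by
    intro a ha n
    rw [X_succ_coe ha, X_succ_coe ha, Y_succ_coe ha]
    ring
  Y_ss := by
    intro a ha n
    rw [Y_succ_coe ha, X_succ_coe ha, Y_succ_coe ha]
    ring

end Pool.Agent.H87.EP
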