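import Pool.Agent.H87.EP.PStm
import Pool.Agent.H51.EP.Stm

/-! Part PELL13: exponentiation is existentially definable, from the Pell parts. -/

set_option autoImplicit false

namespace Pool.Agent.H87.EP

open Pool.Agent.Helper687.Arith Pool.Agent.H51.EP

theorem DioF.ofNat (n : ℕ) [n.AtLeastTwo] : DioF (fun M _ _ => (OfNat.ofNat n : M)) := by
  refine Dio.congr (DioF.num (OfNat.ofNat n)) fun M _ v => ?_
  beta_reduce
  rw [Nat.cast_ofNat]


theorem matCond_dio : Dio (fun _ _ v => MatCond (v 0) (v 1) (v 2) (v 3)) := by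
  unfold MatCond
  (repeat' first | with_reducible exact Pool.Agent.H87.EP.DioF.ofNat _ | with_reducible apply Pool.Agent.H51.EP.DioF.sb | with_reducible apply Pool.Agent.H51.EP.Dio.cg | with_reducible apply Pool.Agent.H51.EP.DioF.pr | assumption | with_reducible exact Pool.Agent.H51.EP.DioF.var _ | with_reducible exact Pool.Agent.H51.EP.DioF.one | with_reducible exact Pool.Agent.H51.EP.DioF.zero | with_reducible exact Pool.Agent.H51.EP.DioF.num _ | with_reducible apply Pool.Agent.H51.EP.Dio.and | with_reducible apply Pool.Agent.H51.EP.Dio.or | with_reducible apply Pool.Agent.H51.EP.Dio.ex | with_reducible apply Pool.Agent.H51.EP.Dio.eq | with_reducible apply Pool.Agent.H51.EP.Dio.lt | with_reducible apply Pool.Agent.H51.EP.Dio.le | with_reducible apply Pool.Agent.H51.EP.Dio.ne | with_reducible apply Pool.Agent.H51.EP.Dio.dvd | with_reducible apply Pool.Agent.H51.EP.DioF.add | with_reducible apply Pool.Agent.H51.EP.DioF.mul)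

/-- the graph of the Pell sequences -/
theorem pell_dio (h1 : ∀ (M : Type) [PAModel M], PellId M)
    (h2 : ∀ (M : Type) [PAModel M], PellOrd M) (h3 : S_PELL3) (h4 : S_PELL4) (h5 : S_PELL5)
    (h6 : ∀ (M : Type) [PAModel M], PellCong M) (h7 : ∀ (M : Type) [PAModel M], PellPer M)
    (h8 : S_PELL8) (h9 : S_PELL9) (h10 : S_PELL10) :
    Dio (fun _ _ v => 1 < v 0 ∧ v 2 = X (v 0) (v 1) ∧ v 3 = Y (v 0) (v 1)) := by
  have hm := matCond_dio
  refine Dio.congr (R := fun _ _ v => 1 < v 0 ∧ ((v 1 = 0 ∧ v 2 = 1 ∧ v 3 = 0) ∨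
    (0 < v 1 ∧ 0 < v 3 ∧ v 1 ≤ v 3 ∧ MatCond (v 0) (v 1) (v 2) (v 3)))) ?_ ?_
  · (repeat' first | with_reducible exact Pool.Agent.H87.EP.DioF.ofNat _ | with_reducible apply Pool.Agent.H51.EP.DioF.sb | with_reducible apply Pool.Agent.H51.EP.Dio.cg | with_reducible apply Pool.Agent.H51.EP.DioF.pr | assumption | with_reducible exact Pool.Agent.H51.EP.DioF.var _ | with_reducible exact Pool.Agent.H51.EP.DioF.one | with_reducible exact Pool.Agent.H51.EP.DioF.zero | with_reducible exact Pool.Agent.H51.EP.DioF.num _ | with_reducible apply Pool.Agent.H51.EP.Dio.and | with_reducible apply Pool.Agent.H51.EP.Dio.or | with_reducible apply Pool.Agent.H51.EP.Dio.ex | with_reducible apply Pool.Agent.H51.EP.Dio.eq | with_reducible apply Pool.Agent.H51.EP.Dio.lt | with_reducible apply Pool.Agent.H51.EP.Dio.le | with_reducible apply Pool.Agent.H51.EP.Dio.ne | with_reducible apply Pool.Agent.H51.EP.Dio.dvd | with_reducible apply Pool.Agent.H51.EP.DioF.add | with_reducible apply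 Pool.Agent.H51.EP.DioF.mul)
  · intro M _ v
    constructor
    · rintro ⟨ha, (⟨h1', h2', h3'⟩ | ⟨hk, hy, hky, hc⟩)⟩
      · refine ⟨ha, ?_, ?_⟩
        · rw [h1', h2', X_zero]
        · rw [h1', h3', Y_zero]
      · have := h10 M (h1 M) (h2 M) (h6 M) (h3 M (h1 M) (h2 M))
          (fun {a} ha => (h5 M (h1 M) (h2 M) ha (h4 M (h1 M) (h2 M) ha).1
            (h4 M (h1 M) (h2 M) ha).2).2)
          (h8 M (h1 M) (h2 M) (h7 M)) ha hky hy hc
        exact ⟨ha, this⟩
    · rintro ⟨ha, hx, hy⟩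
      refine ⟨ha, ?_⟩
      rcases eq_or_ne (v 1) 0 with h0 | h0
      · left
        rw [hx, hy, h0, X_zero, Y_zero]
        exact ⟨rfl, rfl, rfl⟩
      · right
        have hk := pos_of_ne h0
        rw [hx, hy]
        exact ⟨hk, (h2 M).Y_pos ha hk, (h2 M).le_Y ha _, h9 M (h1 M) (h2 M) (h6 M)
          (fun {a} ha => (h4 M (h1 M) (h2 M) ha).1)
          (fun {a} ha => (h5 M (h1 M) (h2 M) ha (h4 M (h1 M) (h2 M) ha).1
            (h4 M (h1 M) (h2 M) ha).2).1) ha hk⟩

theorem pow_dio (hW : ∀ (M : Type) [PAModel M], PwFacts M)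
    (h1 : ∀ (M : Type) [PAModel M], PellId M)
    (h2 : ∀ (M : Type) [PAModel M], PellOrd M) (h3 : S_PELL3) (h4 : S_PELL4) (h5 : S_PELL5)
    (h6 : ∀ (M : Type) [PAModel M], PellCong M) (h7 : ∀ (M : Type) [PAModel M], PellPer M)
    (h8 : S_PELL8) (h9 : S_PELL9) (h10 : S_PELL10) (h11 : S_PELL11) (h12 : S_PELL12) : S_POW := by
  have hp := pell_dio h1 h2 h3 h4 h5 h6 h7 h8 h9 h10
  have hpc : Dio (fun _ _ v => PowCond (v 1) (v 2) (v 0)) := by
    refine Dio.congr (R := fun M _ v => ∃ w a t z x y : M,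
      (1 < a ∧ x = X a (v 2) ∧ y = Y a (v 2)) ∧ Cg t (x + y * v 1) (y * a + v 0) ∧
      2 * a * v 1 = t + (v 1 * v 1 + 1) ∧ v 0 < t ∧ v 1 ≤ w ∧ v 2 ≤ w ∧
      a * a + w * z * (w * z) = (w + 1) * (w + 1) * (w * z * (w * z)) + 1) ?_ ?_
    · have hp' : Dio (fun _ _ v => 1 < v 4 ∧ v 1 = X (v 4) (v 8) ∧ v 0 = Y (v 4) (v 8)) :=
        Dio.ren (fun n => match n with | 0 => 4 | 1 => 8 | 2 => 1 | 3 => 0 | n => n) hp
      iterate 6 apply Dio.ex
      refine Dio.and hp' ?_
      (repeat' first | with_reducible exact Pool.Agent.H87.EP.DioF.ofNat _ | with_reducible apply Pool.Agent.H51.EP.DioF.sb | with_reducible apply Pool.Agent.H51.EP.Dio.cg | with_reducible apply Pool.Agent.H51.EP.DioF.pr | assumption | with_reducible exact Pool.Agent.H51.EP.DioF.var _ | with_reducible exact Pool.Agent.H51.EP.DioF.one | with_reducible exact Pool.Agent.H51.EP.DioF.zero | with_reducible exact Pool.Agent.H51.EP.DioF.num _ | with_reducible apply Pool.Agent.H51.EP.Dio.and | with_reducible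 apply Pool.Agent.H51.EP.Dio.or | with_reducible apply Pool.Agent.H51.EP.Dio.ex | with_reducible apply Pool.Agent.H51.EP.Dio.eq | with_reducible apply Pool.Agent.H51.EP.Dio.lt | with_reducible apply Pool.Agent.H51.EP.Dio.le | with_reducible apply Pool.Agent.H51.EP.Dio.ne | with_reducible apply Pool.Agent.H51.EP.Dio.dvd | with_reducible apply Pool.Agent.H51.EP.DioF.add | with_reducible apply Pool.Agent.H51.EP.DioF.mul)
    · intro M _ v
      constructor
      · rintro ⟨w, a, t, z, x, y, ⟨ha, rfl, rfl⟩, h⟩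
        exact ⟨w, a, t, z, ha, h⟩
      · rintro ⟨w, a, t, z, ha, h⟩
        exact ⟨w, a, t, z, _, _, ⟨ha, rfl, rfl⟩, h⟩
  refine Dio.congr (R := fun _ _ v => (v 2 = 0 ∧ v 0 = 1) ∨ (0 < v 2 ∧ v 1 = 0 ∧ v 0 = 0) ∨
    (0 < v 2 ∧ 0 < v 1 ∧ PowCond (v 1) (v 2) (v 0))) ?_ ?_
  · (repeat' first | with_reducible exact Pool.Agent.H87.EP.DioF.ofNat _ | with_reducible apply Pool.Agent.H51.EP.DioF.sb | with_reducible apply Pool.Agent.H51.EP.Dio.cg | with_reducible apply Pool.Agent.H51.EP.DioF.pr | assumption | with_reducible exact Pool.Agent.H51.EP.DioF.var _ | with_reducible exact Pool.Agent.H51.EP.DioF.one | with_reducible exact Pool.Agent.H51.EP.DioF.zero | with_reducible exact Pool.Agent.H51.EP.DioF.num _ | with_reducible apply Pool.Agent.H51.EP.Dio.and | with_reducible apply Pool.Agent.H51.EP.Dio.or | with_reducible apply Pool.Agent.H51.EP.Dio.ex | with_reducible apply Pool.Agent.H51.EP.Dio.eq | with_reducible apply Pool.Agent.H51.EP.Dio.lt | with_reducible apply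 Pool.Agent.H51.EP.Dio.le | with_reducible apply Pool.Agent.H51.EP.Dio.ne | with_reducible apply Pool.Agent.H51.EP.Dio.dvd | with_reducible apply Pool.Agent.H51.EP.DioF.add | with_reducible apply Pool.Agent.H51.EP.DioF.mul)
  · intro M _ v
    constructor
    · rintro (⟨h, h'⟩ | ⟨hk, h, h'⟩ | ⟨hk, hn, hc⟩)
      · rw [h, h', pw_zero]
      · rw [h, h', (hW M).zero_base hk]
      · exact h12 M (hW M) (h1 M) (h2 M) (h6 M) (h3 M (h1 M) (h2 M)) hn hk hc
    · intro h
      rcases eq_or_ne (v 2) 0 with hk | hk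
      · left
        rw [h, hk, pw_zero]
        exact ⟨rfl, rfl⟩
      · right
        have hk' := pos_of_ne hk
        rcases eq_or_ne (v 1) 0 with hn | hn
        · left
          rw [h, hn, (hW M).zero_base hk']
          exact ⟨hk', rfl, rfl⟩
        · right
          refine ⟨hk', pos_of_ne hn, ?_⟩
          rw [h]
          exact h11 M (hW M) (h1 M) (h2 M) (h6 M) (pos_of_ne hn) hk'

end Pool.Agent.H87.EP
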