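import Pool.Agent.H87.EP.PStm

/-! Part PELL2: inequalities for the Pell sequences. -/

set_option autoImplicit false

namespace Pool.Agent.H87.EP

open Pool.Agent.Helper687.Arith Pool.Agent.H51.EP

section

variable {M : Type} [PAModel M]

theorem X_pos' {a : M} (ha : 1 < a) (n : M) : 0 < X a n := by
  refine ind (P := fun n => 0 < X a n) (by (repeat' first | with_reducible apply Pool.Agent.H87.EP.DefF.Y | with_reducible apply Pool.Agent.H87.EP.DefF.X | with_reducible apply Pool.Agent.H87.EP.DefF.dd | with_reducible apply Pool.Agent.Helper687.Arith.DefF.snd | with_reducible apply Pool.Agent.Helper687.Arith.DefF.fst | with_reducible apply Pool.Agent.H87.EP.DefZ.eq | with_reducible apply Pool.Agent.H87.EP.DefZ.lt | with_reducible apply Pool.Agent.H87.EP.DefZ.le | with_reducible apply Pool.Agent.H87.EP.DefZ.dvd | with_reducible exact Pool.Agent.H87.EP.DefZ.const _ | with_reducible apply Pool.Agent.H87.EP.DefZ.coe | with_reducible apply Pool.Agent.H87.EP.DefZ.add | with_reducible apply Pool.Agent.H87.EP.DefZ.mul | with_reducible apply Pool.Agent.H87.EP.DefZ.sub | with_reducible apply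 Pool.Agent.H87.EP.DefZ.neg | with_reducible apply Pool.Agent.H87.EP.DefZ.npow | with_reducible apply Pool.Agent.H51.EP.Def.cg | with_reducible apply Pool.Agent.H51.EP.DefF.pr | with_reducible apply Pool.Agent.H51.EP.DefF.bn | with_reducible apply Pool.Agent.H51.EP.DefF.ff | with_reducible apply Pool.Agent.H51.EP.DefF.fc | with_reducible apply Pool.Agent.H51.EP.DefF.pw | with_reducible apply Pool.Agent.H51.EP.DefF.sb | with_reducible apply Pool.Agent.H51.EP.DefF.rc | with_reducible apply Pool.Agent.H51.EP.Def.dvd | assumption | with_reducible exact Pool.Agent.Helper687.Arith.DefF.var _ | with_reducible exact Pool.Agent.Helper687.Arith.DefF.const _ | with_reducible exact Pool.Agent.Helper687.Arith.Def.const _ | with_reducible apply Pool.Agent.Helper687.Arith.DefF.val | with_reducible apply Pool.Agent.Helper687.Arith.DefF.pow2 | with_reducible apply Pool.Agent.Helper687.Arith.Def.and | with_reducible apply Pool.Agent.Helper687.Arith.Def.or | with_reducible apply Pool.Agent.Helper687.Arith.Def.iff | with_reducible apply Pool.Agent.Helper687.Arith.Def.not | with_reducible apply Pool.Agent.Helper687.Arith.Def.ex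 | with_reducible apply Pool.Agent.Helper687.Arith.Def.all | with_reducible apply Pool.Agent.Helper687.Arith.Def.imp | with_reducible apply Pool.Agent.Helper687.Arith.Def.eq | with_reducible apply Pool.Agent.Helper687.Arith.Def.lt | with_reducible apply Pool.Agent.Helper687.Arith.Def.le | with_reducible apply Pool.Agent.Helper687.Arith.DefF.add | with_reducible apply Pool.Agent.Helper687.Arith.DefF.mul | with_reducible apply Pool.Agent.Helper687.Arith.DefF.the)) ?_ ?_ n
  · rw [X_zero]; exact zero_lt_one
  · intro n ih
    rw [X_succ]
    exact lt_of_lt_of_le (mul_pos ih (zero_lt_one.trans ha)) le_self_add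

/-- a successor step gives strict monotonicity -/
theorem lt_of_step {f : M → M} (hf : DefF (fun v => f (v 0))) (h : ∀ n, f n < f (n + 1))
    {m n : M} (hmn : m < n) : f m < f n := by
  have h2 : ∀ {g k : (ℕ → M) → M}, DefF g → DefF (fun v => f (g v)) :=
    fun hg => DefF.app1 hf hg
  have key : ∀ k : M, f m < f (m + (k + 1)) := by
    intro k
    refine ind (P := fun k => f m < f (m + (k + 1))) ?_ ?_ ?_ k
    · apply Def.lt
      · exact DefF.const _
      · exact DefF.app1 hf (by (repeat' first | with_reducible apply Pool.Agent.H87.EP.DefF.Y | with_reducible apply Pool.Agent.H87.EP.DefF.X | with_reducible apply Pool.Agent.H87.EP.DefF.dd | with_reducible apply Pool.Agent.Helper687.Arith.DefF.snd | with_reducible apply Pool.Agent.Helper687.Arith.DefF.fst | with_reducible apply Pool.Agent.H87.EP.DefZ.eq | with_reducible apply Pool.Agent.H87.EP.DefZ.lt | with_reducible apply Pool.Agent.H87.EP.DefZ.le | with_reducible apply Pool.Agent.H87.EP.DefZ.dvd | with_reducible exact Pool.Agent.H87.EP.DefZ.const _ | with_reducible apply Pool.Agent.H87.EP.DefZ.coe | with_reducible apply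 Pool.Agent.H87.EP.DefZ.add | with_reducible apply Pool.Agent.H87.EP.DefZ.mul | with_reducible apply Pool.Agent.H87.EP.DefZ.sub | with_reducible apply Pool.Agent.H87.EP.DefZ.neg | with_reducible apply Pool.Agent.H87.EP.DefZ.npow | with_reducible apply Pool.Agent.H51.EP.Def.cg | with_reducible apply Pool.Agent.H51.EP.DefF.pr | with_reducible apply Pool.Agent.H51.EP.DefF.bn | with_reducible apply Pool.Agent.H51.EP.DefF.ff | with_reducible apply Pool.Agent.H51.EP.DefF.fc | with_reducible apply Pool.Agent.H51.EP.DefF.pw | with_reducible apply Pool.Agent.H51.EP.DefF.sb | with_reducible apply Pool.Agent.H51.EP.DefF.rc | with_reducible apply Pool.Agent.H51.EP.Def.dvd | assumption | with_reducible exact Pool.Agent.Helper687.Arith.DefF.var _ | with_reducible exact Pool.Agent.Helper687.Arith.DefF.const _ | with_reducible exact Pool.Agent.Helper687.Arith.Def.const _ | with_reducible apply Pool.Agent.Helper687.Arith.DefF.val | with_reducible apply Pool.Agent.Helper687.Arith.DefF.pow2 | with_reducible apply Pool.Agent.Helper687.Arith.Def.and | with_reducible apply Pool.Agent.Helper687.Arith.Def.or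 | with_reducible apply Pool.Agent.Helper687.Arith.Def.iff | with_reducible apply Pool.Agent.Helper687.Arith.Def.not | with_reducible apply Pool.Agent.Helper687.Arith.Def.ex | with_reducible apply Pool.Agent.Helper687.Arith.Def.all | with_reducible apply Pool.Agent.Helper687.Arith.Def.imp | with_reducible apply Pool.Agent.Helper687.Arith.Def.eq | with_reducible apply Pool.Agent.Helper687.Arith.Def.lt | with_reducible apply Pool.Agent.Helper687.Arith.Def.le | with_reducible apply Pool.Agent.Helper687.Arith.DefF.add | with_reducible apply Pool.Agent.Helper687.Arith.DefF.mul | with_reducible apply Pool.Agent.Helper687.Arith.DefF.the))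
    · rw [zero_add]; exact h m
    · intro k ih
      have := h (m + (k + 1))
      rw [add_assoc] at this
      exact ih.trans this
  obtain ⟨k, hk⟩ := (lt_iff_exists m n).mp hmn
  rw [← hk]
  exact key k

theorem le_of_lt_step {f : M → M} (h : ∀ {m n : M}, m < n → f m < f n) {m n : M} (hmn : m ≤ n) :
    f m ≤ f n := by
  rcases hmn.lt_or_eq with h' | h'
  · exact (h h').le
  · rw [h']

theorem inj_of_lt_step {f : M → M} (h : ∀ {m n : M}, m < n → f m < f n) {m n : M}
    (hmn : f m = f n) : m = n := by
  rcases lt_trichotomy m n with h' | h' | h'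
  · exact absurd hmn (h h').ne
  · exact h'
  · exact absurd hmn (h h').ne'

theorem X_lt' {a : M} (ha : 1 < a) {m n : M} (hmn : m < n) : X a m < X a n := by
  refine lt_of_step (f := fun n => X a n) (by (repeat' first | with_reducible apply Pool.Agent.H87.EP.DefF.Y | with_reducible apply Pool.Agent.H87.EP.DefF.X | with_reducible apply Pool.Agent.H87.EP.DefF.dd | with_reducible apply Pool.Agent.Helper687.Arith.DefF.snd | with_reducible apply Pool.Agent.Helper687.Arith.DefF.fst | with_reducible apply Pool.Agent.H87.EP.DefZ.eq | with_reducible apply Pool.Agent.H87.EP.DefZ.lt | with_reducible apply Pool.Agent.H87.EP.DefZ.le | with_reducible apply Pool.Agent.H87.EP.DefZ.dvd | with_reducible exact Pool.Agent.H87.EP.DefZ.const _ | with_reducible apply Pool.Agent.H87.EP.DefZ.coe | with_reducible apply Pool.Agent.H87.EP.DefZ.add | with_reducible apply Pool.Agent.H87.EP.DefZ.mul | with_reducible apply Pool.Agent.H87.EP.DefZ.sub | with_reducible apply Pool.Agent.H87.EP.DefZ.neg | with_reducible apply Pool.Agent.H87.EP.DefZ.npow | with_reducible apply Pool.Agent.H51.EP.Def.cg | with_reducible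 apply Pool.Agent.H51.EP.DefF.pr | with_reducible apply Pool.Agent.H51.EP.DefF.bn | with_reducible apply Pool.Agent.H51.EP.DefF.ff | with_reducible apply Pool.Agent.H51.EP.DefF.fc | with_reducible apply Pool.Agent.H51.EP.DefF.pw | with_reducible apply Pool.Agent.H51.EP.DefF.sb | with_reducible apply Pool.Agent.H51.EP.DefF.rc | with_reducible apply Pool.Agent.H51.EP.Def.dvd | assumption | with_reducible exact Pool.Agent.Helper687.Arith.DefF.var _ | with_reducible exact Pool.Agent.Helper687.Arith.DefF.const _ | with_reducible exact Pool.Agent.Helper687.Arith.Def.const _ | with_reducible apply Pool.Agent.Helper687.Arith.DefF.val | with_reducible apply Pool.Agent.Helper687.Arith.DefF.pow2 | with_reducible apply Pool.Agent.Helper687.Arith.Def.and | with_reducible apply Pool.Agent.Helper687.Arith.Def.or | with_reducible apply Pool.Agent.Helper687.Arith.Def.iff | with_reducible apply Pool.Agent.Helper687.Arith.Def.not | with_reducible apply Pool.Agent.Helper687.Arith.Def.ex | with_reducible apply Pool.Agent.Helper687.Arith.Def.all | with_reducible apply Pool.Agent.Helper687.Arith.Def.imp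 | with_reducible apply Pool.Agent.Helper687.Arith.Def.eq | with_reducible apply Pool.Agent.Helper687.Arith.Def.lt | with_reducible apply Pool.Agent.Helper687.Arith.Def.le | with_reducible apply Pool.Agent.Helper687.Arith.DefF.add | with_reducible apply Pool.Agent.Helper687.Arith.DefF.mul | with_reducible apply Pool.Agent.Helper687.Arith.DefF.the)) (fun n => ?_) hmn
  rw [X_succ]
  refine lt_of_lt_of_le ?_ le_self_add
  calc X a n = X a n * 1 := (mul_one _).symm
    _ < X a n * a := by
      exact mul_lt_mul_of_pos_left ha (X_pos' ha n)

theorem Y_lt' {a : M} (ha : 1 < a) {m n : M} (hmn : m < n) : Y a m < Y a n := by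
  refine lt_of_step (f := fun n => Y a n) (by (repeat' first | with_reducible apply Pool.Agent.H87.EP.DefF.Y | with_reducible apply Pool.Agent.H87.EP.DefF.X | with_reducible apply Pool.Agent.H87.EP.DefF.dd | with_reducible apply Pool.Agent.Helper687.Arith.DefF.snd | with_reducible apply Pool.Agent.Helper687.Arith.DefF.fst | with_reducible apply Pool.Agent.H87.EP.DefZ.eq | with_reducible apply Pool.Agent.H87.EP.DefZ.lt | with_reducible apply Pool.Agent.H87.EP.DefZ.le | with_reducible apply Pool.Agent.H87.EP.DefZ.dvd | with_reducible exact Pool.Agent.H87.EP.DefZ.const _ | with_reducible apply Pool.Agent.H87.EP.DefZ.coe | with_reducible apply Pool.Agent.H87.EP.DefZ.add | with_reducible apply Pool.Agent.H87.EP.DefZ.mul | with_reducible apply Pool.Agent.H87.EP.DefZ.sub | with_reducible apply Pool.Agent.H87.EP.DefZ.neg | with_reducible apply Pool.Agent.H87.EP.DefZ.npow | with_reducible apply Pool.Agent.H51.EP.Def.cg | with_reducible apply Pool.Agent.H51.EP.DefF.pr | with_reducible apply Pool.Agent.H51.EP.DefF.bn | with_reducible apply Pool.Agent.H51.EP.DefF.ff | with_reducible apply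 Pool.Agent.H51.EP.DefF.fc | with_reducible apply Pool.Agent.H51.EP.DefF.pw | with_reducible apply Pool.Agent.H51.EP.DefF.sb | with_reducible apply Pool.Agent.H51.EP.DefF.rc | with_reducible apply Pool.Agent.H51.EP.Def.dvd | assumption | with_reducible exact Pool.Agent.Helper687.Arith.DefF.var _ | with_reducible exact Pool.Agent.Helper687.Arith.DefF.const _ | with_reducible exact Pool.Agent.Helper687.Arith.Def.const _ | with_reducible apply Pool.Agent.Helper687.Arith.DefF.val | with_reducible apply Pool.Agent.Helper687.Arith.DefF.pow2 | with_reducible apply Pool.Agent.Helper687.Arith.Def.and | with_reducible apply Pool.Agent.Helper687.Arith.Def.or | with_reducible apply Pool.Agent.Helper687.Arith.Def.iff | with_reducible apply Pool.Agent.Helper687.Arith.Def.not | with_reducible apply Pool.Agent.Helper687.Arith.Def.ex | with_reducible apply Pool.Agent.Helper687.Arith.Def.all | with_reducible apply Pool.Agent.Helper687.Arith.Def.imp | with_reducible apply Pool.Agent.Helper687.Arith.Def.eq | with_reducible apply Pool.Agent.Helper687.Arith.Def.lt | with_reducible apply Pool.Agent.Helper687.Arith.Def.le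 | with_reducible apply Pool.Agent.Helper687.Arith.DefF.add | with_reducible apply Pool.Agent.Helper687.Arith.DefF.mul | with_reducible apply Pool.Agent.Helper687.Arith.DefF.the)) (fun n => ?_) hmn
  rw [Y_succ]
  calc Y a n = 0 + Y a n * 1 := by rw [zero_add, mul_one]
    _ < X a n + Y a n * a := by
      apply add_lt_add_of_lt_of_le (X_pos' ha n)
      gcongr

theorem le_of_lt_step' {f : M → M} (hf : DefF (fun v => f (v 0))) (h : ∀ {m n : M}, m < n → f m < f n) (n : M) : n ≤ f n := by
  refine ind (P := fun n => n ≤ f n) ?_ ?_ ?_ n
  · apply Def.le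
    · (repeat' first | with_reducible apply Pool.Agent.H87.EP.DefF.Y | with_reducible apply Pool.Agent.H87.EP.DefF.X | with_reducible apply Pool.Agent.H87.EP.DefF.dd | with_reducible apply Pool.Agent.Helper687.Arith.DefF.snd | with_reducible apply Pool.Agent.Helper687.Arith.DefF.fst | with_reducible apply Pool.Agent.H87.EP.DefZ.eq | with_reducible apply Pool.Agent.H87.EP.DefZ.lt | with_reducible apply Pool.Agent.H87.EP.DefZ.le | with_reducible apply Pool.Agent.H87.EP.DefZ.dvd | with_reducible exact Pool.Agent.H87.EP.DefZ.const _ | with_reducible apply Pool.Agent.H87.EP.DefZ.coe | with_reducible apply Pool.Agent.H87.EP.DefZ.add | with_reducible apply Pool.Agent.H87.EP.DefZ.mul | with_reducible apply Pool.Agent.H87.EP.DefZ.sub | with_reducible apply Pool.Agent.H87.EP.DefZ.neg | with_reducible apply Pool.Agent.H87.EP.DefZ.npow | with_reducible apply Pool.Agent.H51.EP.Def.cg | with_reducible apply Pool.Agent.H51.EP.DefF.pr | with_reducible apply Pool.Agent.H51.EP.DefF.bn | with_reducible apply Pool.Agent.H51.EP.DefF.ff | with_reducible apply Pool.Agent.H51.EP.DefF.fc | with_reducible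 apply Pool.Agent.H51.EP.DefF.pw | with_reducible apply Pool.Agent.H51.EP.DefF.sb | with_reducible apply Pool.Agent.H51.EP.DefF.rc | with_reducible apply Pool.Agent.H51.EP.Def.dvd | assumption | with_reducible exact Pool.Agent.Helper687.Arith.DefF.var _ | with_reducible exact Pool.Agent.Helper687.Arith.DefF.const _ | with_reducible exact Pool.Agent.Helper687.Arith.Def.const _ | with_reducible apply Pool.Agent.Helper687.Arith.DefF.val | with_reducible apply Pool.Agent.Helper687.Arith.DefF.pow2 | with_reducible apply Pool.Agent.Helper687.Arith.Def.and | with_reducible apply Pool.Agent.Helper687.Arith.Def.or | with_reducible apply Pool.Agent.Helper687.Arith.Def.iff | with_reducible apply Pool.Agent.Helper687.Arith.Def.not | with_reducible apply Pool.Agent.Helper687.Arith.Def.ex | with_reducible apply Pool.Agent.Helper687.Arith.Def.all | with_reducible apply Pool.Agent.Helper687.Arith.Def.imp | with_reducible apply Pool.Agent.Helper687.Arith.Def.eq | with_reducible apply Pool.Agent.Helper687.Arith.Def.lt | with_reducible apply Pool.Agent.Helper687.Arith.Def.le | with_reducible apply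 Pool.Agent.Helper687.Arith.DefF.add | with_reducible apply Pool.Agent.Helper687.Arith.DefF.mul | with_reducible apply Pool.Agent.Helper687.Arith.DefF.the)
    · exact hf
  · exact zero_le
  · intro n ih
    rw [succ_le_iff]
    exact lt_of_le_of_lt ih (h (lt_succ_iff.mpr le_rfl))

theorem two_mul_X' {a : M} (ha : 1 < a) (n : M) : 2 * X a n ≤ X a (n + 1) := by
  rw [X_succ, mul_comm]
  have h2 : (2 : M) ≤ a := by
    have := succ_le_iff.mpr ha
    rwa [one_add_one_eq_two] at this
  calc X a n * 2 ≤ X a n * a := by gcongr
    _ ≤ _ := le_self_add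

end

theorem pellOrd (M : Type) [PAModel M] (h : PellId M) : PellOrd M where
  X_pos := fun ha n => X_pos' ha n
  X_lt := fun ha _ _ h => X_lt' ha h
  Y_lt := fun ha _ _ h => Y_lt' ha h
  X_le := fun {a} ha _ _ h => le_of_lt_step (f := fun n => X a n) (fun h => X_lt' ha h) h
  Y_le := fun {a} ha _ _ h => le_of_lt_step (f := fun n => Y a n) (fun h => Y_lt' ha h) h
  X_inj := fun {a} ha _ _ h => inj_of_lt_step (f := fun n => X a n) (fun h => X_lt' ha h) h
  Y_inj := fun {a} ha _ _ h => inj_of_lt_step (f := fun n => Y a n) (fun h => Y_lt' ha h) h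
  le_Y := fun {a} ha n => le_of_lt_step' (f := fun n => Y a n) (by (repeat' first | with_reducible apply Pool.Agent.H87.EP.DefF.Y | with_reducible apply Pool.Agent.H87.EP.DefF.X | with_reducible apply Pool.Agent.H87.EP.DefF.dd | with_reducible apply Pool.Agent.Helper687.Arith.DefF.snd | with_reducible apply Pool.Agent.Helper687.Arith.DefF.fst | with_reducible apply Pool.Agent.H87.EP.DefZ.eq | with_reducible apply Pool.Agent.H87.EP.DefZ.lt | with_reducible apply Pool.Agent.H87.EP.DefZ.le | with_reducible apply Pool.Agent.H87.EP.DefZ.dvd | with_reducible exact Pool.Agent.H87.EP.DefZ.const _ | with_reducible apply Pool.Agent.H87.EP.DefZ.coe | with_reducible apply Pool.Agent.H87.EP.DefZ.add | with_reducible apply Pool.Agent.H87.EP.DefZ.mul | with_reducible apply Pool.Agent.H87.EP.DefZ.sub | with_reducible apply Pool.Agent.H87.EP.DefZ.neg | with_reducible apply Pool.Agent.H87.EP.DefZ.npow | with_reducible apply Pool.Agent.H51.EP.Def.cg | with_reducible apply Pool.Agent.H51.EP.DefF.pr | with_reducible apply Pool.Agent.H51.EP.DefF.bn | with_reducible apply Pool.Agent.H51.EP.DefF.ff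 | with_reducible apply Pool.Agent.H51.EP.DefF.fc | with_reducible apply Pool.Agent.H51.EP.DefF.pw | with_reducible apply Pool.Agent.H51.EP.DefF.sb | with_reducible apply Pool.Agent.H51.EP.DefF.rc | with_reducible apply Pool.Agent.H51.EP.Def.dvd | assumption | with_reducible exact Pool.Agent.Helper687.Arith.DefF.var _ | with_reducible exact Pool.Agent.Helper687.Arith.DefF.const _ | with_reducible exact Pool.Agent.Helper687.Arith.Def.const _ | with_reducible apply Pool.Agent.Helper687.Arith.DefF.val | with_reducible apply Pool.Agent.Helper687.Arith.DefF.pow2 | with_reducible apply Pool.Agent.Helper687.Arith.Def.and | with_reducible apply Pool.Agent.Helper687.Arith.Def.or | with_reducible apply Pool.Agent.Helper687.Arith.Def.iff | with_reducible apply Pool.Agent.Helper687.Arith.Def.not | with_reducible apply Pool.Agent.Helper687.Arith.Def.ex | with_reducible apply Pool.Agent.Helper687.Arith.Def.all | with_reducible apply Pool.Agent.Helper687.Arith.Def.imp | with_reducible apply Pool.Agent.Helper687.Arith.Def.eq | with_reducible apply Pool.Agent.Helper687.Arith.Def.lt | with_reducible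 apply Pool.Agent.Helper687.Arith.Def.le | with_reducible apply Pool.Agent.Helper687.Arith.DefF.add | with_reducible apply Pool.Agent.Helper687.Arith.DefF.mul | with_reducible apply Pool.Agent.Helper687.Arith.DefF.the)) (fun h => Y_lt' ha h) n
  lt_X := by
    intro a ha n
    refine ind (P := fun n => n < X a n) (by (repeat' first | with_reducible apply Pool.Agent.H87.EP.DefF.Y | with_reducible apply Pool.Agent.H87.EP.DefF.X | with_reducible apply Pool.Agent.H87.EP.DefF.dd | with_reducible apply Pool.Agent.Helper687.Arith.DefF.snd | with_reducible apply Pool.Agent.Helper687.Arith.DefF.fst | with_reducible apply Pool.Agent.H87.EP.DefZ.eq | with_reducible apply Pool.Agent.H87.EP.DefZ.lt | with_reducible apply Pool.Agent.H87.EP.DefZ.le | with_reducible apply Pool.Agent.H87.EP.DefZ.dvd | with_reducible exact Pool.Agent.H87.EP.DefZ.const _ | with_reducible apply Pool.Agent.H87.EP.DefZ.coe | with_reducible apply Pool.Agent.H87.EP.DefZ.add | with_reducible apply Pool.Agent.H87.EP.DefZ.mul | with_reducible apply Pool.Agent.H87.EP.DefZ.sub | with_reducible apply Pool.Agent.H87.EP.DefZ.neg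 | with_reducible apply Pool.Agent.H87.EP.DefZ.npow | with_reducible apply Pool.Agent.H51.EP.Def.cg | with_reducible apply Pool.Agent.H51.EP.DefF.pr | with_reducible apply Pool.Agent.H51.EP.DefF.bn | with_reducible apply Pool.Agent.H51.EP.DefF.ff | with_reducible apply Pool.Agent.H51.EP.DefF.fc | with_reducible apply Pool.Agent.H51.EP.DefF.pw | with_reducible apply Pool.Agent.H51.EP.DefF.sb | with_reducible apply Pool.Agent.H51.EP.DefF.rc | with_reducible apply Pool.Agent.H51.EP.Def.dvd | assumption | with_reducible exact Pool.Agent.Helper687.Arith.DefF.var _ | with_reducible exact Pool.Agent.Helper687.Arith.DefF.const _ | with_reducible exact Pool.Agent.Helper687.Arith.Def.const _ | with_reducible apply Pool.Agent.Helper687.Arith.DefF.val | with_reducible apply Pool.Agent.Helper687.Arith.DefF.pow2 | with_reducible apply Pool.Agent.Helper687.Arith.Def.and | with_reducible apply Pool.Agent.Helper687.Arith.Def.or | with_reducible apply Pool.Agent.Helper687.Arith.Def.iff | with_reducible apply Pool.Agent.Helper687.Arith.Def.not | with_reducible apply Pool.Agent.Helper687.Arith.Def.ex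 | with_reducible apply Pool.Agent.Helper687.Arith.Def.all | with_reducible apply Pool.Agent.Helper687.Arith.Def.imp | with_reducible apply Pool.Agent.Helper687.Arith.Def.eq | with_reducible apply Pool.Agent.Helper687.Arith.Def.lt | with_reducible apply Pool.Agent.Helper687.Arith.Def.le | with_reducible apply Pool.Agent.Helper687.Arith.DefF.add | with_reducible apply Pool.Agent.Helper687.Arith.DefF.mul | with_reducible apply Pool.Agent.Helper687.Arith.DefF.the)) ?_ ?_ n
    · exact X_pos' ha 0
    · intro n ih
      have h1 := X_lt' ha (lt_succ_iff.mpr (le_refl n))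
      exact lt_of_le_of_lt (succ_le_iff.mpr ih) h1
  Y_pos := by
    intro a ha n hn
    have := Y_lt' ha hn
    rwa [Y_zero] at this
  pw_le := by
    intro a ha n
    refine ind (P := fun n => pw a n ≤ X a n) (by (repeat' first | with_reducible apply Pool.Agent.H87.EP.DefF.Y | with_reducible apply Pool.Agent.H87.EP.DefF.X | with_reducible apply Pool.Agent.H87.EP.DefF.dd | with_reducible apply Pool.Agent.Helper687.Arith.DefF.snd | with_reducible apply Pool.Agent.Helper687.Arith.DefF.fst | with_reducible apply Pool.Agent.H87.EP.DefZ.eq | with_reducible apply Pool.Agent.H87.EP.DefZ.lt | with_reducible apply Pool.Agent.H87.EP.DefZ.le | with_reducible apply Pool.Agent.H87.EP.DefZ.dvd | with_reducible exact Pool.Agent.H87.EP.DefZ.const _ | with_reducible apply Pool.Agent.H87.EP.DefZ.coe | with_reducible apply Pool.Agent.H87.EP.DefZ.add | with_reducible apply Pool.Agent.H87.EP.DefZ.mul | with_reducible apply Pool.Agent.H87.EP.DefZ.sub | with_reducible apply Pool.Agent.H87.EP.DefZ.neg | with_reducible apply Pool.Agent.H87.EP.DefZ.npow | with_reducible apply Pool.Agent.H51.EP.Def.cg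 | with_reducible apply Pool.Agent.H51.EP.DefF.pr | with_reducible apply Pool.Agent.H51.EP.DefF.bn | with_reducible apply Pool.Agent.H51.EP.DefF.ff | with_reducible apply Pool.Agent.H51.EP.DefF.fc | with_reducible apply Pool.Agent.H51.EP.DefF.pw | with_reducible apply Pool.Agent.H51.EP.DefF.sb | with_reducible apply Pool.Agent.H51.EP.DefF.rc | with_reducible apply Pool.Agent.H51.EP.Def.dvd | assumption | with_reducible exact Pool.Agent.Helper687.Arith.DefF.var _ | with_reducible exact Pool.Agent.Helper687.Arith.DefF.const _ | with_reducible exact Pool.Agent.Helper687.Arith.Def.const _ | with_reducible apply Pool.Agent.Helper687.Arith.DefF.val | with_reducible apply Pool.Agent.Helper687.Arith.DefF.pow2 | with_reducible apply Pool.Agent.Helper687.Arith.Def.and | with_reducible apply Pool.Agent.Helper687.Arith.Def.or | with_reducible apply Pool.Agent.Helper687.Arith.Def.iff | with_reducible apply Pool.Agent.Helper687.Arith.Def.not | with_reducible apply Pool.Agent.Helper687.Arith.Def.ex | with_reducible apply Pool.Agent.Helper687.Arith.Def.all | with_reducible apply Pool.Agent.Helper687.Arith.Def.imp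 | with_reducible apply Pool.Agent.Helper687.Arith.Def.eq | with_reducible apply Pool.Agent.Helper687.Arith.Def.lt | with_reducible apply Pool.Agent.Helper687.Arith.Def.le | with_reducible apply Pool.Agent.Helper687.Arith.DefF.add | with_reducible apply Pool.Agent.Helper687.Arith.DefF.mul | with_reducible apply Pool.Agent.Helper687.Arith.DefF.the)) ?_ ?_ n
    · rw [pw_zero, X_zero]
    · intro n ih
      rw [pw_succ, X_succ]
      calc pw a n * a ≤ X a n * a := by gcongr
        _ ≤ _ := le_self_add
  two_mul_X := fun ha n => two_mul_X' ha n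
  two_mul_X_lt := by
    intro a ha n hn
    rw [X_succ, mul_comm]
    have h2 : (2 : M) ≤ a := by
      have := succ_le_iff.mpr ha
      rwa [one_add_one_eq_two] at this
    have hy : 0 < Y a n := by
      have := Y_lt' ha hn
      rwa [Y_zero] at this
    have hd : 0 < dd a := by
      apply pos_of_ne
      intro h0
      have := dd_spec ha
      rw [h0, zero_add] at this
      have h3 : (1 : M) < a * a := by
        calc (1 : M) = 1 * 1 := (mul_one 1).symm
          _ < a * a := mul_lt_mul'' ha ha zero_le zero_le
      exact absurd this h3.ne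
    calc X a n * 2 ≤ X a n * a := by gcongr
      _ < X a n * a + dd a * Y a n := lt_add_of_pos_right _ (mul_pos hd hy)
  coprime := by
    intro a ha n
    refine ⟨(X a n : M), -((a : Zr M) ^ 2 - 1) * (Y a n : M), ?_⟩
    have := h.eq ha n
    linear_combination this

end Pool.Agent.H87.EP
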