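import Pool.Agent.H87.EP.PStm

/-! Part PELL4: divisibility properties of the Pell sequence `Y`. -/

set_option autoImplicit false

namespace Pool.Agent.H87.EP

open Pool.Agent.Helper687.Arith Pool.Agent.H51.EP

theorem pell4 : S_PELL4 := by
  intro M _ h1 h2 a ha
  have key : ∀ n k : M, ((Y a n : M) : Zr M) ∣ ((Y a (n * k) : M) : Zr M) := by
    intro n k
    refine ind (P := fun k => ((Y a n : M) : Zr M) ∣ ((Y a (n * k) : M) : Zr M)) (by (repeat' first | with_reducible apply Pool.Agent.H87.EP.DefF.Y | with_reducible apply Pool.Agent.H87.EP.DefF.X | with_reducible apply Pool.Agent.H87.EP.DefF.dd | with_reducible apply Pool.Agent.Helper687.Arith.DefF.snd | with_reducible apply Pool.Agent.Helper687.Arith.DefF.fst | with_reducible apply Pool.Agent.H87.EP.DefZ.eq | with_reducible apply Pool.Agent.H87.EP.DefZ.lt | with_reducible apply Pool.Agent.H87.EP.DefZ.le | with_reducible apply Pool.Agent.H87.EP.DefZ.dvd | with_reducible exact Pool.Agent.H87.EP.DefZ.const _ | with_reducible apply Pool.Agent.H87.EP.DefZ.coe | with_reducible apply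 Pool.Agent.H87.EP.DefZ.add | with_reducible apply Pool.Agent.H87.EP.DefZ.mul | with_reducible apply Pool.Agent.H87.EP.DefZ.sub | with_reducible apply Pool.Agent.H87.EP.DefZ.neg | with_reducible apply Pool.Agent.H87.EP.DefZ.npow | with_reducible apply Pool.Agent.H51.EP.Def.cg | with_reducible apply Pool.Agent.H51.EP.DefF.pr | with_reducible apply Pool.Agent.H51.EP.DefF.bn | with_reducible apply Pool.Agent.H51.EP.DefF.ff | with_reducible apply Pool.Agent.H51.EP.DefF.fc | with_reducible apply Pool.Agent.H51.EP.DefF.pw | with_reducible apply Pool.Agent.H51.EP.DefF.sb | with_reducible apply Pool.Agent.H51.EP.DefF.rc | with_reducible apply Pool.Agent.H51.EP.Def.dvd | assumption | with_reducible exact Pool.Agent.Helper687.Arith.DefF.var _ | with_reducible exact Pool.Agent.Helper687.Arith.DefF.const _ | with_reducible exact Pool.Agent.Helper687.Arith.Def.const _ | with_reducible apply Pool.Agent.Helper687.Arith.DefF.val | with_reducible apply Pool.Agent.Helper687.Arith.DefF.pow2 | with_reducible apply Pool.Agent.Helper687.Arith.Def.and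 | with_reducible apply Pool.Agent.Helper687.Arith.Def.or | with_reducible apply Pool.Agent.Helper687.Arith.Def.iff | with_reducible apply Pool.Agent.Helper687.Arith.Def.not | with_reducible apply Pool.Agent.Helper687.Arith.Def.ex | with_reducible apply Pool.Agent.Helper687.Arith.Def.all | with_reducible apply Pool.Agent.Helper687.Arith.Def.imp | with_reducible apply Pool.Agent.Helper687.Arith.Def.eq | with_reducible apply Pool.Agent.Helper687.Arith.Def.lt | with_reducible apply Pool.Agent.Helper687.Arith.Def.le | with_reducible apply Pool.Agent.Helper687.Arith.DefF.add | with_reducible apply Pool.Agent.Helper687.Arith.DefF.mul | with_reducible apply Pool.Agent.Helper687.Arith.DefF.the)) ?_ ?_ k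
    · rw [mul_zero, Y_zero]
      simp
    · rintro k ⟨c, hc⟩
      rw [mul_add, mul_one, h1.Y_add ha]
      refine ⟨(X a (n * k) : M) + c * (X a n : M), ?_⟩
      linear_combination ((X a n : M) : Zr M) * hc
  refine ⟨key, ?_⟩
  intro m n hmn
  rcases eq_or_ne m 0 with hm | hm
  · rw [hm, Y_zero, Zr.coe_zero, zero_dvd_iff, ← Zr.coe_zero, Zr.coe_inj] at hmn
    have : n = 0 := h2.Y_inj ha (by rw [hmn, Y_zero])
    rw [this]
    exact dvd_zero _
  · obtain ⟨r, ⟨q, hq⟩, hr⟩ := exists_rem n (pos_of_ne hm)
    have hk := key m q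
    have hco : IsCoprime ((Y a m : M) : Zr M) ((X a (m * q) : M) : Zr M) :=
      IsCoprime.of_isCoprime_of_dvd_left (h2.coprime ha (m * q)).symm hk
    have e : n = m * q + r := by rw [hq, mul_comm]
    rw [e, h1.Y_add ha] at hmn
    have h3 : ((Y a m : M) : Zr M) ∣ ((X a (m * q) : M) : Zr M) * (Y a r : M) :=
      (dvd_add_left (hk.mul_right _)).mp hmn
    have h4 : ((Y a m : M) : Zr M) ∣ ((Y a r : M) : Zr M) := hco.dvd_of_dvd_mul_left h3
    rcases eq_or_ne r 0 with hr0 | hr0
    · rw [e, hr0, add_zero]
      exact dvd_mul_right _ _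
    · exfalso
      have h5 : (0 : Zr M) < ((Y a r : M) : Zr M) := by
        rw [← Zr.coe_zero, Zr.coe_lt]
        exact h2.Y_pos ha (pos_of_ne hr0)
      have h6 := Zr.le_of_dvd h5 h4
      rw [Zr.coe_le] at h6
      exact absurd h6 (not_le.mpr (h2.Y_lt ha hr))

end Pool.Agent.H87.EP
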