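import Pool.Agent.H87.EP.PStm

/-! Part PELL5: divisibility by squares. -/

set_option autoImplicit false

namespace Pool.Agent.H87.EP

open Pool.Agent.Helper687.Arith Pool.Agent.H51.EP

theorem pell5_cube {M : Type} [PAModel M] (h1 : PellId M) {a : M} (ha : 1 < a)
    (hd : ∀ n k : M, ((Y a n : M) : Zr M) ∣ ((Y a (n * k) : M) : Zr M)) (n k : M) :
    ((Y a n : M) : Zr M) ^ 3 ∣ ((X a n : M) : Zr M) * (Y a (n * k) : M) -
      (k : Zr M) * (X a (n * k) : M) * (Y a n : M) := by
  refine ind (P := fun k => ((Y a n : M) : Zr M) ^ 3 ∣ ((X a n : M) : Zr M) * (Y a (n * k) : M) -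
      (k : Zr M) * (X a (n * k) : M) * (Y a n : M)) (by (repeat' first | with_reducible apply Pool.Agent.H87.EP.DefF.Y | with_reducible apply Pool.Agent.H87.EP.DefF.X | with_reducible apply Pool.Agent.H87.EP.DefF.dd | with_reducible apply Pool.Agent.Helper687.Arith.DefF.snd | with_reducible apply Pool.Agent.Helper687.Arith.DefF.fst | with_reducible apply Pool.Agent.H87.EP.DefZ.eq | with_reducible apply Pool.Agent.H87.EP.DefZ.lt | with_reducible apply Pool.Agent.H87.EP.DefZ.le | with_reducible apply Pool.Agent.H87.EP.DefZ.dvd | with_reducible exact Pool.Agent.H87.EP.DefZ.const _ | with_reducible apply Pool.Agent.H87.EP.DefZ.coe | with_reducible apply Pool.Agent.H87.EP.DefZ.add | with_reducible apply Pool.Agent.H87.EP.DefZ.mul | with_reducible apply Pool.Agent.H87.EP.DefZ.sub | with_reducible apply Pool.Agent.H87.EP.DefZ.neg | with_reducible apply Pool.Agent.H87.EP.DefZ.npow | with_reducible apply Pool.Agent.H51.EP.Def.cg | with_reducible apply Pool.Agent.H51.EP.DefF.pr | with_reducible apply Pool.Agent.H51.EP.DefF.bn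 | with_reducible apply Pool.Agent.H51.EP.DefF.ff | with_reducible apply Pool.Agent.H51.EP.DefF.fc | with_reducible apply Pool.Agent.H51.EP.DefF.pw | with_reducible apply Pool.Agent.H51.EP.DefF.sb | with_reducible apply Pool.Agent.H51.EP.DefF.rc | with_reducible apply Pool.Agent.H51.EP.Def.dvd | assumption | with_reducible exact Pool.Agent.Helper687.Arith.DefF.var _ | with_reducible exact Pool.Agent.Helper687.Arith.DefF.const _ | with_reducible exact Pool.Agent.Helper687.Arith.Def.const _ | with_reducible apply Pool.Agent.Helper687.Arith.DefF.val | with_reducible apply Pool.Agent.Helper687.Arith.DefF.pow2 | with_reducible apply Pool.Agent.Helper687.Arith.Def.and | with_reducible apply Pool.Agent.Helper687.Arith.Def.or | with_reducible apply Pool.Agent.Helper687.Arith.Def.iff | with_reducible apply Pool.Agent.Helper687.Arith.Def.not | with_reducible apply Pool.Agent.Helper687.Arith.Def.ex | with_reducible apply Pool.Agent.Helper687.Arith.Def.all | with_reducible apply Pool.Agent.Helper687.Arith.Def.imp | with_reducible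 apply Pool.Agent.Helper687.Arith.Def.eq | with_reducible apply Pool.Agent.Helper687.Arith.Def.lt | with_reducible apply Pool.Agent.Helper687.Arith.Def.le | with_reducible apply Pool.Agent.Helper687.Arith.DefF.add | with_reducible apply Pool.Agent.Helper687.Arith.DefF.mul | with_reducible apply Pool.Agent.Helper687.Arith.DefF.the)) ?_ ?_ k
  · rw [mul_zero, Y_zero]
    simp
  · rintro k ⟨c, hc⟩
    obtain ⟨e, he⟩ := hd n k
    rw [mul_add, mul_one, h1.Y_add ha, h1.X_add ha]
    refine ⟨((X a n : M) : Zr M) * c - ((k : Zr M) + 1) * ((a : Zr M) ^ 2 - 1) * e, ?_⟩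
    push_cast
    linear_combination ((X a n : M) : Zr M) * hc -
      ((k : Zr M) + 1) * ((a : Zr M) ^ 2 - 1) * (Y a n : M) ^ 2 * he

theorem pell5 : S_PELL5 := by
  intro M _ h1 h2 a ha hd hd'
  constructor
  · intro n
    obtain ⟨c, hc⟩ := pell5_cube h1 ha hd n (Y a n)
    have h3 : ((Y a n : M) : Zr M) ^ 2 ∣ ((X a n : M) : Zr M) * (Y a (n * Y a n) : M) :=
      ⟨((Y a n : M) : Zr M) * c + (X a (n * Y a n) : M), by linear_combination hc⟩
    exact ((h2.coprime ha n).pow_right (n := 2)).symm.dvd_of_dvd_mul_left h3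
  · intro n t ht
    have hnt : n ∣ t := hd' n t (Dvd.dvd.trans (dvd_pow_self _ two_ne_zero) ht)
    obtain ⟨k, rfl⟩ := hnt
    rcases eq_or_ne n 0 with hn | hn
    · rw [hn, zero_mul, Y_zero]
    · have hy : ((Y a n : M) : Zr M) ≠ 0 := by
        have := h2.Y_pos ha (pos_of_ne hn)
        intro h0
        rw [← Zr.coe_zero, Zr.coe_inj] at h0
        exact absurd h0 this.ne'
      obtain ⟨c, hc⟩ := pell5_cube h1 ha hd n k
      obtain ⟨d, hd1⟩ := ht
      have h3 : ((Y a n : M) : Zr M) * (Y a n : M) ∣
          ((X a (n * k) : M) : Zr M) * (k : Zr M) * (Y a n : M) :=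
        ⟨((X a n : M) : Zr M) * d - (Y a n : M) * c, by
          linear_combination ((X a n : M) : Zr M) * hd1 - hc⟩
      have h4 : ((Y a n : M) : Zr M) ∣ ((X a (n * k) : M) : Zr M) * (k : Zr M) :=
        (mul_dvd_mul_iff_right hy).mp h3
      have hco : IsCoprime ((Y a n : M) : Zr M) ((X a (n * k) : M) : Zr M) :=
        IsCoprime.of_isCoprime_of_dvd_left (h2.coprime ha (n * k)).symm (hd n k)
      have h5 := hco.dvd_of_dvd_mul_left h4
      rw [Zr.coe_mul]
      exact h5.mul_left _

end Pool.Agent.H87.EP
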