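import Pool.Agent.H87.EP.PStm

/-! Part PELL7: periodicity modulo `X_n`. -/

set_option autoImplicit false

namespace Pool.Agent.H87.EP

open Pool.Agent.Helper687.Arith Pool.Agent.H51.EP

section

variable {M : Type} [PAModel M]

theorem per_two_add (h : PellId M) {a : M} (ha : 1 < a) (n j : M) :
    ((X a n : M) : Zr M) ∣ ((X a (2 * n + j) : M) : Zr M) + X a j := by
  have e : 2 * n + j = n + (n + j) := by ring
  rw [e, h.X_add ha, h.Y_add ha]
  have he := h.eq ha n
  refine ⟨((X a (n + j) : M) : Zr M) + ((a : Zr M) ^ 2 - 1) * Y a n * Y a j +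
    (X a n : M) * (X a j : M), ?_⟩
  linear_combination (-((X a j : M) : Zr M)) * he

/-- `X_{2n-j} ≡ - X_j` for `j ≤ n` -/
theorem per_two_sub_aux (h : PellId M) {a : M} (ha : 1 < a) (n j i : M) (hi : i + j = n) :
    ((X a n : M) : Zr M) ∣ ((X a (n + i) : M) : Zr M) + X a j := by
  have h1 := h.X_sub ha j i
  have h2 := h.Y_sub ha i j
  rw [add_comm j i, hi] at h1
  rw [hi] at h2
  have h3 := h.X_sub ha i j
  rw [hi] at h3
  rw [h.X_add ha]
  -- X_j = X_n X_i - D Y_n Y_i
  refine ⟨2 * ((X a i : M) : Zr M), ?_⟩
  linear_combination h1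

theorem per_two_sub (h : PellId M) {a : M} (ha : 1 < a) (n j k : M) (hk : k + j = 2 * n) :
    ((X a n : M) : Zr M) ∣ ((X a k : M) : Zr M) + X a j := by
  rcases le_total j n with hj | hj
  · obtain ⟨i, hi⟩ := exists_add_of_le hj
    have hk' : k = n + i := by
      have : k + j = (n + i) + j := by
        rw [hk, two_mul, add_assoc, add_comm i j, ← hi]
      exact add_right_cancel this
    rw [hk']
    exact per_two_sub_aux h ha n j i (by rw [hi, add_comm])
  · have hkn : k ≤ n := by
      by_contra hc
      push Not at hc
      have : n + n < k + j := add_lt_add_of_lt_of_le hc hj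
      rw [hk, two_mul] at this
      exact lt_irrefl _ this
    obtain ⟨i, hi⟩ := exists_add_of_le hkn
    have hj' : j = n + i := by
      have : j + k = (n + i) + k := by
        rw [add_comm j k, hk, two_mul, add_assoc, add_comm i k, ← hi]
      exact add_right_cancel this
    rw [hj', add_comm ((X a k : M) : Zr M)]
    exact per_two_sub_aux h ha n k i (by rw [hi, add_comm])

theorem per_four_mul (h : PellId M) {a : M} (ha : 1 < a) (n q j : M) :
    ((X a n : M) : Zr M) ∣ ((X a (4 * n * q + j) : M) : Zr M) - X a j := by
  refine ind (P := fun q => ((X a n : M) : Zr M) ∣ ((X a (4 * n * q + j) : M) : Zr M) - X a j)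
    (by (repeat' first | with_reducible apply Pool.Agent.H87.EP.DefF.Y | with_reducible apply Pool.Agent.H87.EP.DefF.X | with_reducible apply Pool.Agent.H87.EP.DefF.dd | with_reducible apply Pool.Agent.Helper687.Arith.DefF.snd | with_reducible apply Pool.Agent.Helper687.Arith.DefF.fst | with_reducible apply Pool.Agent.H87.EP.DefZ.eq | with_reducible apply Pool.Agent.H87.EP.DefZ.lt | with_reducible apply Pool.Agent.H87.EP.DefZ.le | with_reducible apply Pool.Agent.H87.EP.DefZ.dvd | with_reducible exact Pool.Agent.H87.EP.DefZ.const _ | with_reducible apply Pool.Agent.H87.EP.DefZ.coe | with_reducible apply Pool.Agent.H87.EP.DefZ.add | with_reducible apply Pool.Agent.H87.EP.DefZ.mul | with_reducible apply Pool.Agent.H87.EP.DefZ.sub | with_reducible apply Pool.Agent.H87.EP.DefZ.neg | with_reducible apply Pool.Agent.H87.EP.DefZ.npow | with_reducible apply Pool.Agent.H51.EP.Def.cg | with_reducible apply Pool.Agent.H51.EP.DefF.pr | with_reducible apply Pool.Agent.H51.EP.DefF.bn | with_reducible apply Pool.Agent.H51.EP.DefF.ff | with_reducible apply Pool.Agent.H51.EP.DefF.fc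 | with_reducible apply Pool.Agent.H51.EP.DefF.pw | with_reducible apply Pool.Agent.H51.EP.DefF.sb | with_reducible apply Pool.Agent.H51.EP.DefF.rc | with_reducible apply Pool.Agent.H51.EP.Def.dvd | assumption | with_reducible exact Pool.Agent.Helper687.Arith.DefF.var _ | with_reducible exact Pool.Agent.Helper687.Arith.DefF.const _ | with_reducible exact Pool.Agent.Helper687.Arith.Def.const _ | with_reducible apply Pool.Agent.Helper687.Arith.DefF.val | with_reducible apply Pool.Agent.Helper687.Arith.DefF.pow2 | with_reducible apply Pool.Agent.Helper687.Arith.Def.and | with_reducible apply Pool.Agent.Helper687.Arith.Def.or | with_reducible apply Pool.Agent.Helper687.Arith.Def.iff | with_reducible apply Pool.Agent.Helper687.Arith.Def.not | with_reducible apply Pool.Agent.Helper687.Arith.Def.ex | with_reducible apply Pool.Agent.Helper687.Arith.Def.all | with_reducible apply Pool.Agent.Helper687.Arith.Def.imp | with_reducible apply Pool.Agent.Helper687.Arith.Def.eq | with_reducible apply Pool.Agent.Helper687.Arith.Def.lt | with_reducible apply Pool.Agent.Helper687.Arith.Def.le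 | with_reducible apply Pool.Agent.Helper687.Arith.DefF.add | with_reducible apply Pool.Agent.Helper687.Arith.DefF.mul | with_reducible apply Pool.Agent.Helper687.Arith.DefF.the)) ?_ ?_ q
  · rw [mul_zero, zero_add, sub_self]
    exact dvd_zero _
  · intro q ih
    have e : 4 * n * (q + 1) + j = 2 * n + (2 * n + (4 * n * q + j)) := by ring
    rw [e]
    have h1 := per_two_add h ha n (2 * n + (4 * n * q + j))
    have h2 := per_two_add h ha n (4 * n * q + j)
    have := dvd_add (dvd_sub h1 h2) ih
    convert this using 1
    ring

end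

theorem pellPer (M : Type) [PAModel M] (h : PellId M) : PellPer M where
  two_add := fun ha n j => per_two_add h ha n j
  two_sub := fun ha n j k hk => per_two_sub h ha n j k hk
  four_mul := fun ha n q j => per_four_mul h ha n q j

end Pool.Agent.H87.EP
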