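import Pool.Agent.H42.EP.PELLW
import Pool.Agent.H87.EP.PELL1
import Pool.Agent.H87.EP.PELL2
import Pool.Agent.H50.EP.PELL3
import Pool.Agent.H87.EP.PELL4
import Pool.Agent.H87.EP.PELL5
import Pool.Agent.H87.EP.PELL6
import Pool.Agent.H87.EP.PELL7
import Pool.Agent.H50.EP.PELL8
import Pool.Agent.H26.EP.P9
import Pool.Agent.H26.EP.P10
import Pool.Agent.H97.EP.PELL11
import Pool.Agent.H87.EP.PELL13

/-! Exponentiation is existentially definable in models of PA. -/

set_option autoImplicit false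

namespace Pool.Agent.H87.EP

open Pool.Agent.H51.EP

theorem POW : S_POW :=
  pow_dio (fun M _ => Pool.Agent.H42.EP.pwFacts M) (fun M _ => pellId M)
    (fun M _ => pellOrd M (pellId M)) Pool.Agent.H50.EP.PELL3 pell4 pell5
    (fun M _ => pellCong M (pellId M)) (fun M _ => pellPer M (pellId M)) Pool.Agent.H50.EP.PELL8
    Pool.Agent.H26.EP.pell9 Pool.Agent.H26.EP.pell10 Pool.Agent.H97.EP.PELL11
    Pool.Agent.H97.EP.PELL12

end Pool.Agent.H87.EP
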