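import Pool.Agent.H87.EP.PDefs

/-!
# Interface of the Pell parts of the project EP

`Zr M` (file `Z.lean`) is the ring of integers of the model `M` of PA: an ordered commutative ring
(so `ring`, `linarith`, `nlinarith`, `linear_combination`, `IsCoprime` work there) with coercion
`M → Zr M` (`push_cast`, `norm_cast`; `Zr.coe_le`, `Zr.coe_lt`, `Zr.coe_inj`, `Zr.coe_dvd`,
`Zr.nonneg_iff`, `Zr.lt_iff_add_one_le`, `Zr.le_of_dvd`, `Zr.exists_divmod`, `cg_iff`).
`dfn` also proves `Def (fun v => (polynomial in coerced functions : Zr M) ∣ / = / ≤ / < ...)`.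
Induction in the model: `ind (P := fun n => ...) (by (repeat' first | with_reducible apply Pool.Agent.H87.EP.DefF.Y | with_reducible apply Pool.Agent.H87.EP.DefF.X | with_reducible apply Pool.Agent.H87.EP.DefF.dd | with_reducible apply Pool.Agent.Helper687.Arith.DefF.snd | with_reducible apply Pool.Agent.Helper687.Arith.DefF.fst | with_reducible apply Pool.Agent.H87.EP.DefZ.eq | with_reducible apply Pool.Agent.H87.EP.DefZ.lt | with_reducible apply Pool.Agent.H87.EP.DefZ.le | with_reducible apply Pool.Agent.H87.EP.DefZ.dvd | with_reducible exact Pool.Agent.H87.EP.DefZ.const _ | with_reducible apply Pool.Agent.H87.EP.DefZ.coe | with_reducible apply Pool.Agent.H87.EP.DefZ.add | with_reducible apply Pool.Agent.H87.EP.DefZ.mul | with_reducible apply Pool.Agent.H87.EP.DefZ.sub | with_reducible apply Pool.Agent.H87.EP.DefZ.neg | with_reducible apply Pool.Agent.H87.EP.DefZ.npow | with_reducible apply Pool.Agent.H51.EP.Def.cg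 | with_reducible apply Pool.Agent.H51.EP.DefF.pr | with_reducible apply Pool.Agent.H51.EP.DefF.bn | with_reducible apply Pool.Agent.H51.EP.DefF.ff | with_reducible apply Pool.Agent.H51.EP.DefF.fc | with_reducible apply Pool.Agent.H51.EP.DefF.pw | with_reducible apply Pool.Agent.H51.EP.DefF.sb | with_reducible apply Pool.Agent.H51.EP.DefF.rc | with_reducible apply Pool.Agent.H51.EP.Def.dvd | assumption | with_reducible exact Pool.Agent.Helper687.Arith.DefF.var _ | with_reducible exact Pool.Agent.Helper687.Arith.DefF.const _ | with_reducible exact Pool.Agent.Helper687.Arith.Def.const _ | with_reducible apply Pool.Agent.Helper687.Arith.DefF.val | with_reducible apply Pool.Agent.Helper687.Arith.DefF.pow2 | with_reducible apply Pool.Agent.Helper687.Arith.Def.and | with_reducible apply Pool.Agent.Helper687.Arith.Def.or | with_reducible apply Pool.Agent.Helper687.Arith.Def.iff | with_reducible apply Pool.Agent.Helper687.Arith.Def.not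 | with_reducible apply Pool.Agent.Helper687.Arith.Def.ex | with_reducible apply Pool.Agent.Helper687.Arith.Def.all | with_reducible apply Pool.Agent.Helper687.Arith.Def.imp | with_reducible apply Pool.Agent.Helper687.Arith.Def.eq | with_reducible apply Pool.Agent.Helper687.Arith.Def.lt | with_reducible apply Pool.Agent.Helper687.Arith.Def.le | with_reducible apply Pool.Agent.Helper687.Arith.DefF.add | with_reducible apply Pool.Agent.Helper687.Arith.DefF.mul | with_reducible apply Pool.Agent.Helper687.Arith.DefF.the)) h0 hs n`, `strong_ind`, `least`;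
it is often best to state `P n` with the variables generalized and in the ring `Zr M`.

Each part proves `theorem xyz (M : Type) [PAModel M] : XYZ M` for the structure `XYZ` below
(or `S_XYZ`), taking other parts as hypotheses as indicated.
-/

set_option autoImplicit false

namespace Pool.Agent.H87.EP

open Pool.Agent.Helper687.Arith Pool.Agent.H51.EP

/-- part PELLW: arithmetic of powers (inductions on `n`; `pw_zero`, `pw_succ` in H51 Num0) -/
structure PwFacts (M : Type) [PAModel M] : Prop where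
  add : ∀ x m n : M, pw x (m + n) = pw x m * pw x n
  mul_base : ∀ x y n : M, pw (x * y) n = pw x n * pw y n
  mul : ∀ x m n : M, pw x (m * n) = pw (pw x m) n
  one_base : ∀ n : M, pw 1 n = 1
  one : ∀ x : M, pw x 1 = x
  zero_base : ∀ {n : M}, 0 < n → pw 0 n = 0
  pos : ∀ {x : M}, 0 < x → ∀ n : M, 0 < pw x n
  le_right : ∀ {x m n : M}, 0 < x → m ≤ n → pw x m ≤ pw x n
  lt_right : ∀ {x m n : M}, 1 < x → m < n → pw x m < pw x n
  le_left : ∀ {x y : M}, x ≤ y → ∀ n : M, pw x n ≤ pw y n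
  lt_left : ∀ {x y n : M}, x < y → 0 < n → pw x n < pw y n
  lt_pw : ∀ {x : M}, 1 < x → ∀ n : M, n < pw x n
  le_self : ∀ {x n : M}, 0 < n → x ≤ pw x n
  natCast : ∀ (x : M) (n : ℕ), pw x (n : M) = x ^ n
  two : ∀ n : M, pw 2 n = pow2 n

/-- part PELL1: identities -/
structure PellId (M : Type) [PAModel M] : Prop where
  one : ∀ a : M, X a 1 = a ∧ Y a 1 = 1
  eq : ∀ {a : M}, 1 < a → ∀ n : M,
    ((X a n : M) : Zr M) ^ 2 - ((a : Zr M) ^ 2 - 1) * ((Y a n : M) : Zr M) ^ 2 = 1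
  X_succ : ∀ {a : M}, 1 < a → ∀ n : M,
    ((X a (n + 1) : M) : Zr M) = (a : Zr M) * X a n + ((a : Zr M) ^ 2 - 1) * Y a n
  Y_succ : ∀ {a : M}, 1 < a → ∀ n : M, ((Y a (n + 1) : M) : Zr M) = ((X a n : M) : Zr M) + a * Y a n
  X_add : ∀ {a : M}, 1 < a → ∀ m n : M,
    ((X a (m + n) : M) : Zr M) = ((X a m : M) : Zr M) * X a n + ((a : Zr M) ^ 2 - 1) * Y a m * Y a n
  Y_add : ∀ {a : M}, 1 < a → ∀ m n : M,
    ((Y a (m + n) : M) : Zr M) = ((X a m : M) : Zr M) * Y a n + ((Y a m : M) : Zr M) * X a n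
  X_sub : ∀ {a : M}, 1 < a → ∀ k n : M,
    ((X a k : M) : Zr M) = ((X a (k + n) : M) : Zr M) * X a n - ((a : Zr M) ^ 2 - 1) * Y a (k + n) * Y a n
  Y_sub : ∀ {a : M}, 1 < a → ∀ k n : M,
    ((Y a k : M) : Zr M) = ((Y a (k + n) : M) : Zr M) * X a n - ((X a (k + n) : M) : Zr M) * Y a n
  X_ss : ∀ {a : M}, 1 < a → ∀ n : M,
    ((X a (n + 1 + 1) : M) : Zr M) = 2 * (a : Zr M) * X a (n + 1) - X a n
  Y_ss : ∀ {a : M}, 1 < a → ∀ n : M,
    ((Y a (n + 1 + 1) : M) : Zr M) = 2 * (a : Zr M) * Y a (n + 1) - Y a n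

/-- part PELL2 (uses `PellId M`): inequalities and coprimality -/
structure PellOrd (M : Type) [PAModel M] : Prop where
  X_pos : ∀ {a : M}, 1 < a → ∀ n : M, 0 < X a n
  X_lt : ∀ {a : M}, 1 < a → ∀ {m n : M}, m < n → X a m < X a n
  Y_lt : ∀ {a : M}, 1 < a → ∀ {m n : M}, m < n → Y a m < Y a n
  X_le : ∀ {a : M}, 1 < a → ∀ {m n : M}, m ≤ n → X a m ≤ X a n
  Y_le : ∀ {a : M}, 1 < a → ∀ {m n : M}, m ≤ n → Y a m ≤ Y a n
  X_inj : ∀ {a : M}, 1 < a → ∀ {m n : M}, X a m = X a n → m = n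
  Y_inj : ∀ {a : M}, 1 < a → ∀ {m n : M}, Y a m = Y a n → m = n
  le_Y : ∀ {a : M}, 1 < a → ∀ n : M, n ≤ Y a n
  lt_X : ∀ {a : M}, 1 < a → ∀ n : M, n < X a n
  Y_pos : ∀ {a : M}, 1 < a → ∀ {n : M}, 0 < n → 0 < Y a n
  pw_le : ∀ {a : M}, 1 < a → ∀ n : M, pw a n ≤ X a n
  two_mul_X : ∀ {a : M}, 1 < a → ∀ n : M, 2 * X a n ≤ X a (n + 1)
  two_mul_X_lt : ∀ {a : M}, 1 < a → ∀ {n : M}, 0 < n → 2 * X a n < X a (n + 1)
  coprime : ∀ {a : M}, 1 < a → ∀ n : M, IsCoprime ((X a n : M) : Zr M) ((Y a n : M) : Zr M)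

/-- part PELL3 (uses `PellId M`, `PellOrd M`): all solutions of the Pell equation. Descent: strong
induction on `y`; if `y > 0` then `(a x - (a² - 1) y, a y - x)` is a solution with
`0 ≤ a y - x < y`. -/
def S_PELL3 : Prop := ∀ (M : Type) [PAModel M], PellId M → PellOrd M → ∀ {a : M}, 1 < a →
  ∀ {x y : M}, (x : Zr M) ^ 2 - ((a : Zr M) ^ 2 - 1) * (y : Zr M) ^ 2 = 1 →
    ∃ n : M, x = X a n ∧ y = Y a n

/-- part PELL4: divisibility (`exists_rem` or `Zr.exists_divmod` for division with remainder) -/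
def S_PELL4 : Prop := ∀ (M : Type) [PAModel M], PellId M → PellOrd M → ∀ {a : M}, 1 < a →
  (∀ n k : M, ((Y a n : M) : Zr M) ∣ ((Y a (n * k) : M) : Zr M)) ∧
  (∀ m n : M, ((Y a m : M) : Zr M) ∣ ((Y a n : M) : Zr M) → m ∣ n)

/-- part PELL5: divisibility by squares. First
`Y_n³ ∣ X_n * Y_{nk} - k * X_{nk} * Y_n` by induction on `k` (with `Y_n ∣ Y_{nk}`). Then with
coprimality of `X_n, Y_n` and of `X_{nk}, Y_{nk}`. -/
def S_PELL5 : Prop := ∀ (M : Type) [PAModel M], PellId M → PellOrd M → ∀ {a : M}, 1 < a →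
  (∀ n k : M, ((Y a n : M) : Zr M) ∣ ((Y a (n * k) : M) : Zr M)) →
  (∀ m n : M, ((Y a m : M) : Zr M) ∣ ((Y a n : M) : Zr M) → m ∣ n) →
  (∀ n : M, ((Y a n : M) : Zr M) ^ 2 ∣ ((Y a (n * Y a n) : M) : Zr M)) ∧
  (∀ n t : M, ((Y a n : M) : Zr M) ^ 2 ∣ ((Y a t : M) : Zr M) → ((Y a n : M) : Zr M) ∣ (t : Zr M))

/-- part PELL6: congruences, by induction with `X_ss`, `Y_ss` (prove `P n ∧ P (n+1)`) or with
`X_succ`, `Y_succ` -/
structure PellCong (M : Type) [PAModel M] : Prop where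
  sub_one : ∀ {a : M}, 1 < a → ∀ n : M, ((a : Zr M) - 1) ∣ ((Y a n : M) : Zr M) - n
  two : ∀ {a : M}, 1 < a → ∀ n : M, (2 : Zr M) ∣ ((Y a n : M) : Zr M) - n
  base : ∀ {a b : M}, 1 < a → 1 < b → ∀ {c : Zr M}, c ∣ (a : Zr M) - b → ∀ n : M,
    c ∣ ((X a n : M) : Zr M) - X b n ∧ c ∣ ((Y a n : M) : Zr M) - Y b n
  pow : ∀ {a : M}, 1 < a → ∀ y n : M,
    (2 * (a : Zr M) * y - (y : Zr M) ^ 2 - 1) ∣ ((Y a n : M) : Zr M) * (a - y) + pw y n - X a n

/-- part PELL7: periodicity modulo `X_n`. `X_{2n+j} ≡ -X_j`: `X_add`, `Y_add` and the Pell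
equation; `X_{2n-j} ≡ -X_j` for `j ≤ n` with `X_sub`, `Y_sub`, then for `j ≤ 2n` by symmetry;
`X_{4nq+j} ≡ X_j` by induction on `q`. -/
structure PellPer (M : Type) [PAModel M] : Prop where
  two_add : ∀ {a : M}, 1 < a → ∀ n j : M,
    ((X a n : M) : Zr M) ∣ ((X a (2 * n + j) : M) : Zr M) + X a j
  two_sub : ∀ {a : M}, 1 < a → ∀ n j k : M, k + j = 2 * n →
    ((X a n : M) : Zr M) ∣ ((X a k : M) : Zr M) + X a j
  four_mul : ∀ {a : M}, 1 < a → ∀ n q j : M,
    ((X a n : M) : Zr M) ∣ ((X a (4 * n * q + j) : M) : Zr M) - X a j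

/-- part PELL8: the step down lemma. Reduce `j` to `j' < 4n` (`exists_rem`, `PellPer.four_mul`),
then to `k ≤ n` with `X_{j'} ≡ X_k` (`j' = k` or `j' + k = 4n`) or `X_{j'} ≡ -X_k` (`j' + k = 2n` or
`j' = 2n + k`). In the first case `X_k = X_i` as both are in `[1, X_n]`, `k = i`; in the second case
`X_n ∣ X_i + X_k ≤ 2 X_n` so `X_i + X_k = X_n` (impossible by `two_mul_X_lt`, `two_mul_X`) or
`= 2 X_n` (then `i = k = n`). -/
def S_PELL8 : Prop := ∀ (M : Type) [PAModel M], PellId M → PellOrd M → PellPer M →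
  ∀ {a : M}, 1 < a → ∀ {i j n : M}, 0 < i → i ≤ n →
    ((X a n : M) : Zr M) ∣ ((X a j : M) : Zr M) - X a i →
      (4 * (n : Zr M) ∣ (j : Zr M) - i) ∨ (4 * (n : Zr M) ∣ (j : Zr M) + i)

/-- the conditions of Matiyasevich -/
def MatCond {M : Type} [PAModel M] (a k x y : M) : Prop :=
  ∃ u v s t b : M, x * x + y * y = a * a * (y * y) + 1 ∧ u * u + v * v = a * a * (v * v) + 1 ∧
    s * s + t * t = b * b * (t * t) + 1 ∧ 1 < b ∧ Cg (4 * y) b 1 ∧ Cg u b a ∧ 0 < v ∧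
    y * y ∣ v ∧ Cg u s x ∧ Cg (4 * y) t k

/-- part PELL9: `u = X_m`, `v = Y_m`, `m = 2 k y`; `b` by the Chinese remainder theorem from
`IsCoprime u (4 y)` (a combination of the two idempotents, plus a multiple of `4 y u` to be
positive and `> 1`), `s = X b k`, `t = Y b k`. See Mathlib `Pell.matiyasevic`. -/
def S_PELL9 : Prop := ∀ (M : Type) [PAModel M], PellId M → PellOrd M → PellCong M →
  (∀ {a : M}, 1 < a → ∀ n k : M, ((Y a n : M) : Zr M) ∣ ((Y a (n * k) : M) : Zr M)) →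
  (∀ {a : M}, 1 < a → ∀ n : M, ((Y a n : M) : Zr M) ^ 2 ∣ ((Y a (n * Y a n) : M) : Zr M)) →
  ∀ {a k : M}, 1 < a → 0 < k → MatCond a k (X a k) (Y a k)

/-- part PELL10: the converse, see Mathlib `Pell.matiyasevic` -/
def S_PELL10 : Prop := ∀ (M : Type) [PAModel M], PellId M → PellOrd M → PellCong M →
  (∀ {a : M}, 1 < a → ∀ {x y : M},
    (x : Zr M) ^ 2 - ((a : Zr M) ^ 2 - 1) * (y : Zr M) ^ 2 = 1 → ∃ n : M, x = X a n ∧ y = Y a n) →
  (∀ {a : M}, 1 < a → ∀ n t : M, ((Y a n : M) : Zr M) ^ 2 ∣ ((Y a t : M) : Zr M) →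
    ((Y a n : M) : Zr M) ∣ (t : Zr M)) →
  (∀ {a : M}, 1 < a → ∀ {i j n : M}, 0 < i → i ≤ n →
    ((X a n : M) : Zr M) ∣ ((X a j : M) : Zr M) - X a i →
      (4 * (n : Zr M) ∣ (j : Zr M) - i) ∨ (4 * (n : Zr M) ∣ (j : Zr M) + i)) →
  ∀ {a k x y : M}, 1 < a → k ≤ y → 0 < y → MatCond a k x y → x = X a k ∧ y = Y a k

/-- the conditions for `n ^ k = m` -/
def PowCond {M : Type} [PAModel M] (n k m : M) : Prop :=
  ∃ w a t z : M, 1 < a ∧ Cg t (X a k + Y a k * n) (Y a k * a + m) ∧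
    2 * a * n = t + (n * n + 1) ∧ m < t ∧ n ≤ w ∧ k ≤ w ∧
    a * a + w * z * (w * z) = (w + 1) * (w + 1) * (w * z * (w * z)) + 1

/-- part PELL11: `w = n + k`, `a = X (w+1) w`, `w z = Y (w+1) w`; see Mathlib
`Pell.eq_pow_of_pell` -/
def S_PELL11 : Prop := ∀ (M : Type) [PAModel M], PwFacts M → PellId M → PellOrd M → PellCong M →
  ∀ {n k : M}, 0 < n → 0 < k → PowCond n k (pw n k)

/-- part PELL12: the converse, see Mathlib `Pell.eq_pow_of_pell` -/
def S_PELL12 : Prop := ∀ (M : Type) [PAModel M], PwFacts M → PellId M → PellOrd M → PellCong M →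
  (∀ {a : M}, 1 < a → ∀ {x y : M},
    (x : Zr M) ^ 2 - ((a : Zr M) ^ 2 - 1) * (y : Zr M) ^ 2 = 1 → ∃ n : M, x = X a n ∧ y = Y a n) →
  ∀ {n k m : M}, 0 < n → 0 < k → PowCond n k m → m = pw n k

end Pool.Agent.H87.EP
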